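import Pool.Agent.HM94.NI.Gen

/-!
# From Boolean programs with several outputs to circuits of the library
-/

set_option linter.unusedSectionVars false
set_option linter.unusedVariables false

namespace Pool.Agent.HM94.NI

open Finset Pool.Agent.W969.MC Pool.Agent.H560R2

/-- Straight-line programs in which the inputs of `H` are not negated, except for `t` unrestricted NOT
gates. -/
inductive TProg {E : Type} (H : Set E) : ℕ → List ((E → Bool) → Bool) → Prop
  | nil : TProg H 0 []
  | and {t L f g} (hL : TProg H t L) (hf : Available L f) (hg : Available L g) :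
      TProg H t ((fun x => f x && g x) :: L)
  | or {t L f g} (hL : TProg H t L) (hf : Available L f) (hg : Available L g) :
      TProg H t ((fun x => f x || g x) :: L)
  | not {t L f} (hL : TProg H t L) (hf : Available L f)
      (hH : ∀ x x' : E → Bool, (∀ e ∉ H, x e = x' e) → f x = f x') :
      TProg H t ((fun x => !f x) :: L)
  | freeNot {t L f} (hL : TProg H t L) (hf : Available L f) :
      TProg H (t + 1) ((fun x => !f x) :: L)

section

variable {E : Type} {H : Set E}

/-- the `i`-th gate -/
def G (L : List ((E → Bool) → Bool)) (i : ℕ) : (E → Bool) → Bool :=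
  L.reverse.getD i (fun _ => false)

lemma G_lt {L : List ((E → Bool) → Bool)} {f : (E → Bool) → Bool} {i : ℕ} (h : i < L.length) :
    G (f :: L) i = G L i := by
  unfold G
  rw [List.reverse_cons, List.getD_append _ _ _ _ (by rw [List.length_reverse]; exact h)]

lemma G_eq {L : List ((E → Bool) → Bool)} {f : (E → Bool) → Bool} :
    G (f :: L) L.length = f := by
  unfold G
  rw [List.reverse_cons, List.getD_append_right _ _ _ _ (by rw [List.length_reverse])]
  simp

lemma mem_G {L : List ((E → Bool) → Bool)} {f : (E → Bool) → Bool} (h : f ∈ L) :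
    ∃ i < L.length, G L i = f := by
  have h1 : f ∈ L.reverse := List.mem_reverse.mpr h
  obtain ⟨i, hi, he⟩ := List.getElem_of_mem h1
  refine ⟨i, by rwa [List.length_reverse] at hi, ?_⟩
  unfold G
  rw [List.getD_eq_getElem _ _ hi, he]

/-- the value of a bit -/
def vb (b : Bool) : ℝ := if b = true then 1 else 0

/-- the input of the whole problem -/
noncomputable def ext (o : E → Bool) (y : ↥H → Bool) : E → Bool :=
  open Classical in fun e => if h : e ∈ H then y ⟨e, h⟩ else o e

lemma ext_eq {o x : E → Bool} (h : ∀ e ∉ H, x e = o e) :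
    ext (H := H) o (fun e => x e.1) = x := by
  classical
  funext e
  unfold ext
  split_ifs with h1
  · rfl
  · exact (h e h1).symm

/-- the wire for a representation -/
def wire (e0 : ↥H) : Bool ⊕ (↥H ⊕ ℕ) → ↥H ⊕ ℕ
  | Sum.inl _ => Sum.inl e0
  | Sum.inr z => z

/-- the value for a representation -/
noncomputable def cv : Bool ⊕ (↥H ⊕ ℕ) → ℝ → ℝ
  | Sum.inl c, _ => vb c
  | Sum.inr _, u => u

lemma cv_mono (p : Bool ⊕ (↥H ⊕ ℕ)) : Monotone (cv p) := by
  intro u v h
  rcases p with c | z
  · exact le_rfl
  · exact h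

lemma cv_thr (p : Bool ⊕ (↥H ⊕ ℕ)) {u v : ℝ} (h : 1 ≤ u ↔ 1 ≤ v) : 1 ≤ cv p u ↔ 1 ≤ cv p v := by
  rcases p with c | z
  · exact Iff.rfl
  · exact h

/-- the value on a wire -/
noncomputable def wv (L : List ((E → Bool) → Bool)) (o : E → Bool) (y : ↥H → Bool) :
    ↥H ⊕ ℕ → ℝ :=
  Sum.elim (fun e => vb (y e)) (fun m => vb (G L m (ext o y)))

lemma Available.rep (o : E → Bool) (e0 : ↥H) {L : List ((E → Bool) → Bool)}
    {f : (E → Bool) → Bool} (hf : Available L f) :
    ∃ p : Bool ⊕ (↥H ⊕ ℕ), (∀ m, wire e0 p = Sum.inr m → m < L.length) ∧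
      ∀ y, vb (f (ext o y)) = cv p (wv L o y (wire e0 p)) := by
  classical
  rcases hf with h1 | ⟨c, rfl⟩ | ⟨e, rfl⟩
  · obtain ⟨i, hi, rfl⟩ := mem_G h1
    refine ⟨Sum.inr (Sum.inr i), ?_, fun y => rfl⟩
    intro m hm
    have : i = m := Sum.inr.inj hm
    omega
  · exact ⟨Sum.inl c, fun m hm => (Sum.inl_ne_inr hm).elim, fun y => rfl⟩
  · by_cases he : e ∈ H
    · refine ⟨Sum.inr (Sum.inl ⟨e, he⟩), fun m hm => (Sum.inl_ne_inr hm).elim, fun y => ?_⟩
      show vb (ext o y e) = vb (y ⟨e, he⟩)
      unfold ext
      rw [dif_pos he]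
    · refine ⟨Sum.inl (o e), fun m hm => (Sum.inl_ne_inr hm).elim, fun y => ?_⟩
      show vb (ext o y e) = vb (o e)
      unfold ext
      rw [dif_neg he]

/-- the `i`-th gate of the circuit -/
def Spec (L : List ((E → Bool) → Bool)) (o : E → Bool) (F : Finset ℕ) (H : Set E) (i : ℕ) : Prop :=
  ∃ (wd : ℕ) (a : Fin wd → ↥H ⊕ ℕ) (op : (Fin wd → ℝ) → ℝ), (∀ j m, a j = Sum.inr m → m < i) ∧
    (i ∉ F → wd ≤ 2 ∧ Monotone op) ∧
    (i ∈ F → wd ≤ 1 ∧ ∀ z z' : Fin wd → ℝ, (∀ j, 1 ≤ z j ↔ 1 ≤ z' j) → op z = op z') ∧
    ∀ y : ↥H → Bool, vb (G L i (ext o y)) = op (fun j => wv L o y (a j))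

lemma Spec.cons {L : List ((E → Bool) → Bool)} {o : E → Bool} {F F' : Finset ℕ} {i : ℕ}
    {f : (E → Bool) → Bool} (h : Spec L o F H i) (hi : i < L.length) (hF : i ∈ F' ↔ i ∈ F) :
    Spec (f :: L) o F' H i := by
  obtain ⟨wd, a, op, h1, h2, h3, h4⟩ := h
  refine ⟨wd, a, op, h1, fun h => h2 (fun h' => h (hF.mpr h')), fun h => h3 (hF.mp h), ?_⟩
  intro y
  rw [G_lt hi, h4 y]
  congr 1
  funext j
  rcases haj : a j with e | m
  · rfl
  · show vb (G L m (ext o y)) = vb (G (f :: L) m (ext o y))
    rw [G_lt ((h1 j m haj).trans hi)]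

lemma two_mono {p p' : Bool ⊕ (↥H ⊕ ℕ)} (φ : ℝ → ℝ → ℝ)
    (hφ : ∀ a a' b b' : ℝ, a ≤ a' → b ≤ b' → φ a b ≤ φ a' b') :
    Monotone (fun u : Fin 2 → ℝ => φ (cv p (u 0)) (cv p' (u 1))) := by
  intro u v h
  exact hφ _ _ _ _ (cv_mono p (h 0)) (cv_mono p' (h 1))

lemma spec_two {L : List ((E → Bool) → Bool)} {o : E → Bool} (e0 : ↥H) {F : Finset ℕ}
    (hF : L.length ∉ F) {f g : (E → Bool) → Bool} (hf : Available L f) (hg : Available L g)
    (ψ : Bool → Bool → Bool) (φ : ℝ → ℝ → ℝ)
    (hφ : ∀ a a' b b' : ℝ, a ≤ a' → b ≤ b' → φ a b ≤ φ a' b')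
    (hψ : ∀ a b, vb (ψ a b) = φ (vb a) (vb b)) :
    Spec ((fun x => ψ (f x) (g x)) :: L) o F H L.length := by
  obtain ⟨p, hp1, hp2⟩ := hf.rep o e0
  obtain ⟨p', hp1', hp2'⟩ := hg.rep o e0
  refine ⟨2, ![wire e0 p, wire e0 p'], fun u => φ (cv p (u 0)) (cv p' (u 1)), ?_,
    fun _ => ⟨le_rfl, two_mono φ hφ⟩, fun h => (hF h).elim, ?_⟩
  · intro j m
    fin_cases j
    · exact hp1 m
    · exact hp1' m
  · intro y
    rw [G_eq]
    show vb (ψ (f (ext o y)) (g (ext o y))) = _
    rw [hψ, hp2 y, hp2' y]
    have key : ∀ z : ↥H ⊕ ℕ, (∀ m, z = Sum.inr m → m < L.length) →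
        wv ((fun x => ψ (f x) (g x)) :: L) o y z = wv L o y z := by
      intro z hz
      rcases z with e | m
      · rfl
      · show vb (G _ m (ext o y)) = vb (G L m (ext o y))
        rw [G_lt (hz m rfl)]
    show _ = φ (cv p (wv _ o y (wire e0 p))) (cv p' (wv _ o y (wire e0 p')))
    rw [key _ hp1, key _ hp1']

lemma TProg.specs (o : E → Bool) (e0 : ↥H) {t : ℕ} {L : List ((E → Bool) → Bool)}
    (hL : TProg H t L) : ∃ F : Finset ℕ, F.card ≤ t ∧ (∀ i ∈ F, i < L.length) ∧
      ∀ i < L.length, Spec L o F H i := by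
  classical
  induction hL with
  | nil => exact ⟨∅, by simp, by simp, by simp⟩
  | @and t L f g _ hf hg ih =>
    obtain ⟨F, h1, h2, h3⟩ := ih
    refine ⟨F, h1, fun i hi => (h2 i hi).trans (by simp), ?_⟩
    intro i hi
    rw [List.length_cons] at hi
    rcases Nat.lt_or_ge i L.length with h | h
    · exact (h3 i h).cons h Iff.rfl
    · have : i = L.length := by omega
      subst this
      refine spec_two e0 (fun h => absurd (h2 _ h) (lt_irrefl _)) hf hg (fun a b => a && b) min
        (fun a a' b b' h h' => min_le_min h h') ?_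
      intro a b
      rcases a <;> rcases b <;> simp [vb]
  | @or t L f g _ hf hg ih =>
    obtain ⟨F, h1, h2, h3⟩ := ih
    refine ⟨F, h1, fun i hi => (h2 i hi).trans (by simp), ?_⟩
    intro i hi
    rw [List.length_cons] at hi
    rcases Nat.lt_or_ge i L.length with h | h
    · exact (h3 i h).cons h Iff.rfl
    · have : i = L.length := by omega
      subst this
      refine spec_two e0 (fun h => absurd (h2 _ h) (lt_irrefl _)) hf hg (fun a b => a || b) max
        (fun a a' b b' h h' => max_le_max h h') ?_
      intro a b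
      rcases a <;> rcases b <;> simp [vb]
  | @not t L f _ hf hH ih =>
    obtain ⟨F, h1, h2, h3⟩ := ih
    refine ⟨F, h1, fun i hi => (h2 i hi).trans (by simp), ?_⟩
    intro i hi
    rw [List.length_cons] at hi
    rcases Nat.lt_or_ge i L.length with h | h
    · exact (h3 i h).cons h Iff.rfl
    · have : i = L.length := by omega
      subst this
      refine ⟨0, Fin.elim0, fun _ => vb (!f (ext o (fun _ : ↥H => false))), fun j => j.elim0,
        fun _ => ⟨by norm_num, fun u v _ => le_rfl⟩,
        fun h => absurd (h2 _ h) (lt_irrefl _), ?_⟩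
      intro y
      rw [G_eq]
      show vb (!f (ext o y)) = vb (!f (ext o (fun _ : ↥H => false)))
      rw [hH (ext o y) (ext o (fun _ : ↥H => false)) ?_]
      intro e he
      unfold ext
      rw [dif_neg he, dif_neg he]
  | @freeNot t L f _ hf ih =>
    obtain ⟨F, h1, h2, h3⟩ := ih
    refine ⟨insert L.length F, (Finset.card_insert_le _ _).trans (by omega), ?_, ?_⟩
    · intro i hi
      rw [List.length_cons]
      rcases Finset.mem_insert.mp hi with rfl | h
      · omega
      · exact (h2 i h).trans (by omega)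
    · intro i hi
      rw [List.length_cons] at hi
      rcases Nat.lt_or_ge i L.length with h | h
      · refine (h3 i h).cons h ?_
        rw [Finset.mem_insert]
        constructor
        · rintro (h' | h')
          · omega
          · exact h'
        · exact Or.inr
      · have : i = L.length := by omega
        subst this
        obtain ⟨p, hp1, hp2⟩ := hf.rep o e0
        refine ⟨1, fun _ => wire e0 p, fun u => if 1 ≤ cv p (u 0) then 0 else 1, ?_,
          fun h => absurd (Finset.mem_insert_self _ _) h, fun _ => ⟨le_rfl, ?_⟩, ?_⟩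
        · intro j m hm
          exact hp1 m hm
        · intro z z' hz
          have := cv_thr p (hz 0)
          by_cases h5 : 1 ≤ cv p (z 0)
          · simp only [h5, this.mp h5, if_true]
          · have h6 : ¬ 1 ≤ cv p (z' 0) := fun h => h5 (this.mpr h)
            simp only [h5, h6, if_false]
        · intro y
          rw [G_eq]
          have key : ∀ z : ↥H ⊕ ℕ, (∀ m, z = Sum.inr m → m < L.length) →
              wv ((fun x => !f x) :: L) o y z = wv L o y z := by
            intro z hz
            rcases z with e | m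
            · rfl
            · show vb (G _ m (ext o y)) = vb (G L m (ext o y))
              rw [G_lt (hz m rfl)]
          show vb (!f (ext o y)) = if 1 ≤ cv p (wv _ o y (wire e0 p)) then 0 else 1
          rw [key _ hp1, ← hp2 y]
          rcases f (ext o y) <;> simp [vb]

/-- the circuit for a program with an arbitrary decision function at the end -/
theorem to_rc (o : E → Bool) (e0 : ↥H) {t : ℕ} {L : List ((E → Bool) → Bool)}
    (hL : TProg H t L) {N : ℕ} (out : Fin N → (E → Bool) → Bool)
    (hout : ∀ j, Available L (out j)) (D : (Fin N → Bool) → Prop) :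
    ∃ C : RC ↥H, C.free ≤ 2 ^ t * (N + 1) ∧ C.size ≤ L.length + 1 + t + N ∧
      ∀ x : E → Bool, (∀ e ∉ H, x e = o e) →
        (C.acc (fun e => x e.1) ↔ D (fun j => out j x)) := by
  classical
  obtain ⟨F, h1, h2, h3⟩ := hL.specs o e0
  have hrep : ∀ j, ∃ p : Bool ⊕ (↥H ⊕ ℕ), (∀ m, wire e0 p = Sum.inr m → m < L.length) ∧
      ∀ y, vb (out j (ext o y)) = cv p (wv L o y (wire e0 p)) := fun j => (hout j).rep o e0
  choose rp hrp1 hrp2 using hrep
  set len := L.length with hlen
  -- the values of the gates
  set V : (↥H → Bool) → Fin (len + 1) → ℝ := fun y i =>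
    if (i : ℕ) < len then vb (G L i (ext o y)) else vb (decide (D (fun j => out j (ext o y))))
    with hV
  set T : Finset (Fin (len + 1)) := univ.filter (fun i => (i : ℕ) ∈ F ∨ (i : ℕ) = len) with hT
  have hgate : ∀ i : Fin (len + 1), ∃ (wd : ℕ) (a : Fin wd → ↥H ⊕ Fin (len + 1))
      (op : (Fin wd → ℝ) → ℝ), (∀ j m, a j = Sum.inr m → m < i) ∧
      (i ∉ T → wd ≤ 2 ∧ Monotone op) ∧
      (i ∈ T → ∀ z z' : Fin wd → ℝ, (∀ j, 1 ≤ z j ↔ 1 ≤ z' j) → op z = op z') ∧
      ((i : ℕ) ∈ F → wd ≤ 1) ∧ ((i : ℕ) = len → wd = N) ∧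
      ∀ y, V y i = op (fun j => Sum.elim (fun e => if y e = true then (1 : ℝ) else 0) (V y) (a j)) := by
    intro i
    rcases Nat.lt_or_ge i len with hi | hi
    · obtain ⟨wd, a, op, g1, g2, g3, g4⟩ := h3 i hi
      refine ⟨wd, fun j => Sum.map id (fun m => (⟨min m len, by omega⟩ : Fin (len + 1))) (a j),
        op, ?_, ?_, ?_, fun h => (g3 h).1, fun h => absurd h (by omega), ?_⟩
      · intro j m hm
        replace hm : Sum.map id (fun m => (⟨min m len, by omega⟩ : Fin (len + 1))) (a j) =
          Sum.inr m := hm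
        rcases haj : a j with e | m'
        · rw [haj] at hm
          exact (Sum.inl_ne_inr hm).elim
        · rw [haj] at hm
          have h5 : (⟨min m' len, by omega⟩ : Fin (len + 1)) = m := Sum.inr.inj hm
          rw [← h5, Fin.lt_def]
          show min m' len < i
          exact (min_le_left _ _).trans_lt (g1 j m' haj)
      · intro h
        apply g2
        intro h'
        exact h (by rw [hT, mem_filter]; exact ⟨mem_univ _, Or.inl h'⟩)
      · intro h
        have h' : (i : ℕ) ∈ F := by
          rcases (mem_filter.mp h).2 with h5 | h5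
          · exact h5
          · omega
        exact (g3 h').2
      · intro y
        rw [hV]
        simp only [hi, if_true]
        rw [g4 y]
        congr 1
        funext j
        rcases haj : a j with e | m
        · rfl
        · have hm : m < len := (g1 j m haj).trans hi
          show vb (G L m (ext o y)) = if ((min m len : ℕ)) < len then
            vb (G L (min m len) (ext o y)) else _
          have h5 : min m len = m := min_eq_left hm.le
          rw [h5, if_pos hm]
    · have hi' : (i : ℕ) = len := by omega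
      refine ⟨N, fun j => Sum.map id (fun m => (⟨min m len, by omega⟩ : Fin (len + 1)))
        (wire e0 (rp j)),
        fun z => if D (fun j => decide (1 ≤ cv (rp j) (z j))) then 1 else 0, ?_, ?_, ?_, ?_,
        fun _ => rfl, ?_⟩
      · intro j m hm
        replace hm : Sum.map id (fun m => (⟨min m len, by omega⟩ : Fin (len + 1)))
          (wire e0 (rp j)) = Sum.inr m := hm
        rcases haj : wire e0 (rp j) with e | m'
        · rw [haj] at hm
          exact (Sum.inl_ne_inr hm).elim
        · rw [haj] at hm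
          have h5 : (⟨min m' len, by omega⟩ : Fin (len + 1)) = m := Sum.inr.inj hm
          rw [← h5, Fin.lt_def]
          show min m' len < i
          have := hrp1 j m' haj
          omega
      · intro h
        exact absurd (by rw [hT, mem_filter]; exact ⟨mem_univ _, Or.inr hi'⟩) h
      · intro _ z z' hz
        have h5 : (fun j => decide (1 ≤ cv (rp j) (z j))) =
            fun j => decide (1 ≤ cv (rp j) (z' j)) := by
          funext j
          exact decide_eq_decide.mpr (cv_thr (rp j) (hz j))
        simp only [h5]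
      · intro h
        exact absurd (h2 _ h) (by omega)
      · intro y
        have h5 : ∀ j, cv (rp j) (Sum.elim (fun e => if y e = true then (1 : ℝ) else 0) (V y)
            (Sum.map id (fun m => (⟨min m len, by omega⟩ : Fin (len + 1))) (wire e0 (rp j)))) =
            vb (out j (ext o y)) := by
          intro j
          rw [hrp2 j y]
          congr 1
          rcases haj : wire e0 (rp j) with e | m
          · rfl
          · have hm : m < len := hrp1 j m haj
            show (if ((min m len : ℕ)) < len then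
              vb (G L (min m len) (ext o y)) else _) = vb (G L m (ext o y))
            have h5 : min m len = m := min_eq_left hm.le
            rw [h5, if_pos hm]
        have h6 : V y i = vb (decide (D (fun j => out j (ext o y)))) := by
          rw [hV]
          simp only [show ¬ ((i : ℕ) < len) from by omega, if_false]
        rw [h6]
        show _ = if D (fun j => decide (1 ≤ cv (rp j) _)) then (1 : ℝ) else 0
        simp only [h5]
        have h7 : (fun j => decide (1 ≤ vb (out j (ext o y)))) = fun j => out j (ext o y) := by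
          funext j
          rcases out j (ext o y) <;> simp [vb]
        rw [h7]
        unfold vb
        by_cases h8 : D (fun j => out j (ext o y))
        · simp [h8]
        · simp [h8]
  choose wd a op g1 g2 g3 g4 g5 g6 using hgate
  have hlast : (Fin.last len) ∈ T := by
    rw [hT, mem_filter]
    exact ⟨mem_univ _, Or.inr rfl⟩
  have hTcard : (T.erase (Fin.last len)).card ≤ t := by
    have h5 : (T.erase (Fin.last len)).card ≤ F.card := by
      apply Finset.card_le_card_of_injOn (fun i : Fin (len + 1) => (i : ℕ))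
      · intro i hi
        obtain ⟨h6, h7⟩ := Finset.mem_erase.mp hi
        rcases (mem_filter.mp h7).2 with h8 | h8
        · exact h8
        · exact absurd (Fin.ext h8) h6
      · intro i _ j _ hij
        exact Fin.ext hij
    omega
  have hTwd : ∀ i ∈ T.erase (Fin.last len), wd i ≤ 1 := by
    intro i hi
    obtain ⟨h6, h7⟩ := Finset.mem_erase.mp hi
    rcases (mem_filter.mp h7).2 with h8 | h8
    · exact g4 i h8
    · exact absurd (Fin.ext h8) h6
  let C : RC ↥H := ⟨len + 1, T, wd, a, op, fun _ _ => 1, V, Fin.last len, 1, g1, g2, g3, fun x i => g6 i x⟩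
  refine ⟨C, ?_, ?_, ?_⟩
  · show ∏ i ∈ T, (wd i + 1) ≤ 2 ^ t * (N + 1)
    rw [← Finset.prod_erase_mul _ _ hlast, g5 _ rfl]
    apply Nat.mul_le_mul_right
    calc ∏ i ∈ T.erase (Fin.last len), (wd i + 1) ≤ ∏ _i ∈ T.erase (Fin.last len), 2 :=
          Finset.prod_le_prod' (fun i hi => by have := hTwd i hi; omega)
      _ = 2 ^ (T.erase (Fin.last len)).card := by rw [Finset.prod_const]
      _ ≤ 2 ^ t := Nat.pow_le_pow_right (by norm_num) hTcard
  · show (len + 1) + ∑ i ∈ T, wd i ≤ len + 1 + t + N
    rw [← Finset.sum_erase_add _ _ hlast, g5 _ rfl]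
    have h5 : ∑ i ∈ T.erase (Fin.last len), wd i ≤ ∑ _i ∈ T.erase (Fin.last len), 1 :=
      Finset.sum_le_sum hTwd
    rw [Finset.sum_const, smul_eq_mul, mul_one] at h5
    omega
  · intro x hx
    show (1 : ℝ) ≤ V (fun e => x e.1) (Fin.last len) ↔ _
    have h5 : V (fun e => x e.1) (Fin.last len) = vb (decide (D (fun j => out j x))) := by
      rw [hV]
      simp only [Fin.val_last, lt_irrefl, if_false]
      rw [ext_eq hx]
    rw [h5]
    unfold vb
    by_cases h8 : D (fun j => out j x)
    · simp [h8]
    · simp only [h8, decide_false]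
      norm_num

end

end Pool.Agent.HM94.NI
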