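import Pool.Agent.HM94.NI.MOne

/-!
# Reductions: few inputs need not be negated
-/

set_option linter.unusedSectionVars false
set_option linter.unusedVariables false

namespace Pool.Agent.HM94.NI

open Finset

section

variable {E : Type} {H : Set E}

lemma TProg.append {t t' : ℕ} {L L' : List ((E → Bool) → Bool)} (hL : TProg H t L)
    (hL' : TProg H t' L') : TProg H (t + t') (L' ++ L) := by
  induction hL' with
  | nil => exact hL
  | and _ hf hg ih =>
    exact TProg.and ih (hf.mono fun f hf => List.mem_append_left _ hf)
      (hg.mono fun f hf => List.mem_append_left _ hf)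
  | or _ hf hg ih =>
    exact TProg.or ih (hf.mono fun f hf => List.mem_append_left _ hf)
      (hg.mono fun f hf => List.mem_append_left _ hf)
  | not _ hf hH ih =>
    exact TProg.not ih (hf.mono fun f hf => List.mem_append_left _ hf) hH
  | freeNot _ hf ih =>
    exact TProg.freeNot ih (hf.mono fun f hf => List.mem_append_left _ hf)

lemma TProg.subst (a : E → Bool) {t : ℕ} {L : List ((E → Bool) → Bool)}
    (hL : TProg (∅ : Set E) t L) : TProg H 0 (L.map fun g x => g (NI.subst H a x)) := by
  induction hL with
  | nil => exact TProg.nil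
  | and _ hf hg ih => exact TProg.and ih (hf.subst a) (hg.subst a)
  | or _ hf hg ih => exact TProg.or ih (hf.subst a) (hg.subst a)
  | @not t L f _ hf _ ih =>
    refine TProg.not ih (hf.subst a) ?_
    intro x x' h
    show f (NI.subst H a x) = f (NI.subst H a x')
    rw [subst_congr a h]
  | @freeNot t L f _ hf ih =>
    refine TProg.not ih (hf.subst a) ?_
    intro x x' h
    show f (NI.subst H a x) = f (NI.subst H a x')
    rw [subst_congr a h]

/-- conjunctions of inputs -/
lemma all_prog (l : List E) : ∃ L : List ((E → Bool) → Bool), TProg H 0 L ∧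
    L.length ≤ l.length ∧ Available L (fun x => l.all x) := by
  induction l with
  | nil => exact ⟨[], TProg.nil, le_rfl, Or.inr (Or.inl ⟨true, rfl⟩)⟩
  | cons e l ih =>
    obtain ⟨L, h1, h2, h3⟩ := ih
    refine ⟨_, TProg.and h1 (Or.inr (Or.inr ⟨e, rfl⟩) : Available L (fun x => x e)) h3, ?_, ?_⟩
    · rw [List.length_cons, List.length_cons]
      omega
    · refine Or.inl ?_
      have h4 : (fun x : E → Bool => (e :: l).all x) = fun x => x e && l.all x := by
        funext x
        rw [List.all_cons]
      rw [h4]
      exact List.mem_cons_self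

/-- many programs -/
lemma union_prog {ι : Type} {z : ℕ} (l : List ι) (P : ι → List ((E → Bool) → Bool))
    (hP : ∀ i, TProg H 0 (P i)) (hz : ∀ i, (P i).length ≤ z) :
    ∃ L : List ((E → Bool) → Bool), TProg H 0 L ∧ L.length ≤ l.length * z ∧
      ∀ i ∈ l, ∀ f ∈ P i, f ∈ L := by
  induction l with
  | nil => exact ⟨[], TProg.nil, by simp, by simp⟩
  | cons i l ih =>
    obtain ⟨L, h1, h2, h3⟩ := ih
    refine ⟨P i ++ L, h1.append (hP i), ?_, ?_⟩
    · rw [List.length_append, List.length_cons, Nat.add_mul, one_mul]
      have := hz i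
      omega
    · intro j hj f hf
      rcases List.mem_cons.mp hj with rfl | hj
      · exact List.mem_append_left _ hf
      · exact List.mem_append_right _ (h3 j hj f hf)

open Classical in
/-- the set of the values of a function -/
noncomputable def vals {m : ℕ} (φ : Fin m → Option ↥H) (e : E) : Bool :=
  decide (∃ i, ∃ e' : ↥H, φ i = some e' ∧ e'.1 = e)

/-- Few inputs need not be negated by reductions. -/
theorem avoid_red [Finite E] {m : ℕ} {P : (E → Bool) → Prop}
    (hmono : ∀ x x' : E → Bool, x ≤ x' → P x → P x')
    (hmin : ∀ x, P x → ∃ S : Finset E, S.card ≤ m ∧ (∀ e ∈ S, x e = true) ∧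
      ∀ x' : E → Bool, (∀ e ∈ H, e ∈ S → x' e = true) → (∀ e ∉ H, x' e = x e) → P x')
    {ι : Type} [DecidableEq ι] (i0 : ι) (Sat : (ι → Bool) → Prop)
    (hSat : ∀ b, Sat (fun i => decide (i = i0) && b) ↔ b = false)
    {t Q s : ℕ} {L : List ((E → Bool) → Bool)} (hL : TProg (∅ : Set E) t L) (hs : L.length ≤ s)
    (out : Fin Q → ι → (E → Bool) → Bool) (hout : ∀ i C, Available L (out i C))
    (ev : (Fin Q → Prop) → Prop) (hright : ∀ x, ev (fun i => Sat (fun C => out i C x)) ↔ P x) :
    ∃ (L' : List ((E → Bool) → Bool))
      (out' : Fin ((H.ncard + 1) ^ m * (Q + 1)) → ι → (E → Bool) → Bool)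
      (ev' : (Fin ((H.ncard + 1) ^ m * (Q + 1)) → Prop) → Prop),
      TProg H 0 L' ∧ L'.length ≤ (H.ncard + 1) ^ m * (s + m) ∧
      (∀ i C, Available L' (out' i C)) ∧
      ∀ x, ev' (fun i => Sat (fun C => out' i C x)) ↔ P x := by
  classical
  have := Fintype.ofFinite E
  have hfin : Fintype ↥H := Fintype.ofFinite _
  have hcardH : Fintype.card ↥H = H.ncard := by
    rw [← Nat.card_eq_fintype_card, Nat.card_coe_set_eq]
  have hcard : Fintype.card ((Fin m → Option ↥H) × Option (Fin Q)) =
      (H.ncard + 1) ^ m * (Q + 1) := by
    rw [Fintype.card_prod, Fintype.card_fun, Fintype.card_option, Fintype.card_option,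
      Fintype.card_fin, Fintype.card_fin, hcardH]
  let e : Fin ((H.ncard + 1) ^ m * (Q + 1)) ≃ (Fin m → Option ↥H) × Option (Fin Q) :=
    (Fintype.equivFinOfCardEq hcard).symm
  -- the inputs of a question
  have hlist : ∀ φ : Fin m → Option ↥H, ∃ l : List E, l.length ≤ m ∧
      ∀ x : E → Bool, l.all x = true ↔ ∀ e, vals φ e = true → x e = true := by
    intro φ
    refine ⟨(Finset.univ.image φ).toList.filterMap (fun o => o.map Subtype.val), ?_, ?_⟩
    · refine (List.length_filterMap_le _ _).trans ?_
      rw [Finset.length_toList]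
      refine Finset.card_image_le.trans ?_
      rw [Finset.card_univ, Fintype.card_fin]
    · intro x
      rw [List.all_eq_true]
      constructor
      · intro h e he
        unfold vals at he
        rw [decide_eq_true_eq] at he
        obtain ⟨i, e', hi, rfl⟩ := he
        apply h
        rw [List.mem_filterMap]
        exact ⟨φ i, by simp, by rw [hi]; rfl⟩
      · intro h e he
        rw [List.mem_filterMap] at he
        obtain ⟨o, ho, hoe⟩ := he
        rw [Finset.mem_toList, Finset.mem_image] at ho
        obtain ⟨i, -, hi⟩ := ho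
        apply h
        unfold vals
        rw [decide_eq_true_eq]
        rcases o with _ | e'
        · simp at hoe
        · refine ⟨i, e', hi, ?_⟩
          simpa using hoe
  choose li hli1 hli2 using hlist
  have hpiece : ∀ φ : Fin m → Option ↥H, ∃ Pr : List ((E → Bool) → Bool), TProg H 0 Pr ∧
      Pr.length ≤ s + m ∧ Available Pr (fun x => (li φ).all x) ∧
      ∀ i C, Available Pr (fun x => out i C (NI.subst H (vals φ) x)) := by
    intro φ
    obtain ⟨La, h1, h2, h3⟩ := all_prog (H := H) (li φ)
    refine ⟨La ++ (L.map fun g x => g (NI.subst H (vals φ) x)),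
      (hL.subst (H := H) (vals φ)).append h1, ?_, ?_, ?_⟩
    · rw [List.length_append, List.length_map]
      have := hli1 φ
      omega
    · exact h3.mono fun f hf => List.mem_append_left _ hf
    · intro i C
      exact ((hout i C).subst (H := H) (vals φ)).mono fun f hf => List.mem_append_right _ hf
  choose Pr hPr1 hPr2 hPr3 hPr4 using hpiece
  obtain ⟨L', h1, h2, h3⟩ := union_prog (H := H)
    (Finset.univ : Finset (Fin m → Option ↥H)).toList Pr hPr1 hPr2
  have hav : ∀ φ f, Available (Pr φ) f → Available L' f := fun φ f hf =>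
    hf.mono fun f' hf' => h3 φ (by simp) f' hf'
  refine ⟨L', fun j C => match (e j).2 with
    | none => fun x => decide (C = i0) && (li (e j).1).all x
    | some i => fun x => out i C (NI.subst H (vals (e j).1) x),
    fun A => ∃ φ : Fin m → Option ↥H, ¬ A (e.symm (φ, none)) ∧
      ev (fun i => A (e.symm (φ, some i))), h1, ?_, ?_, ?_⟩
  · refine h2.trans ?_
    rw [Finset.length_toList, Finset.card_univ, Fintype.card_fun, Fintype.card_option,
      Fintype.card_fin, hcardH]
  · intro j C
    rcases hj : (e j).2 with _ | i
    · simp only [hj]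
      by_cases hC : C = i0
      · have h5 : (fun x : E → Bool => decide (C = i0) && (li (e j).1).all x) =
            fun x => (li (e j).1).all x := by
          funext x
          simp [hC]
        rw [h5]
        exact hav _ _ (hPr3 _)
      · have h5 : (fun x : E → Bool => decide (C = i0) && (li (e j).1).all x) =
            fun _ => false := by
          funext x
          simp [hC]
        rw [h5]
        exact Or.inr (Or.inl ⟨false, rfl⟩)
    · simp only [hj]
      exact hav _ _ (hPr4 _ i C)
  · intro x
    have key : ∀ φ : Fin m → Option ↥H,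
        ((¬ Sat (fun C => (match (e (e.symm (φ, none))).2 with
          | none => fun x => decide (C = i0) && (li (e (e.symm (φ, none))).1).all x
          | some i => fun x => out i C (NI.subst H (vals (e (e.symm (φ, none))).1) x) :
            (E → Bool) → Bool) x)) ↔ ∀ e, vals φ e = true → x e = true) := by
      intro φ
      rw [Equiv.apply_symm_apply, ← hli2 φ x]
      show ¬ Sat (fun C => decide (C = i0) && (li φ).all x) ↔ _
      rw [hSat]
      simp
    constructor
    · rintro ⟨φ, hφ1, hφ2⟩
      have h5 := (key φ).mp hφ1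
      simp only [Equiv.apply_symm_apply] at hφ2
      have h6 := (hright (NI.subst H (vals φ) x)).mp hφ2
      refine hmono _ x ?_ h6
      intro e'
      unfold NI.subst
      by_cases he : e' ∈ H
      · rw [if_pos he]
        rcases hv : vals φ e' with _ | _
        · exact Bool.false_le _
        · rw [h5 e' hv]
      · rw [if_neg he]
    · intro hx
      obtain ⟨S, hS1, hS2, hS3⟩ := hmin x hx
      obtain ⟨φ, hφ⟩ := enum_exists (X := ↥H) (Finset.univ.filter fun e : ↥H => e.1 ∈ S) (m := m) (by
        refine le_trans ?_ hS1
        apply Finset.card_le_card_of_injOn (fun e : ↥H => e.1)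
        · intro e' he'
          exact (Finset.mem_filter.mp he').2
        · intro e' _ e'' _ h
          exact Subtype.ext h)
      have hvals : ∀ e', vals φ e' = true ↔ e' ∈ H ∧ e' ∈ S := by
        intro e'
        unfold vals
        rw [decide_eq_true_eq]
        constructor
        · rintro ⟨i, e'', hi, rfl⟩
          exact ⟨e''.2, (Finset.mem_filter.mp ((hφ e'').mp ⟨i, hi⟩)).2⟩
        · rintro ⟨h5, h6⟩
          obtain ⟨i, hi⟩ := (hφ ⟨e', h5⟩).mpr (Finset.mem_filter.mpr ⟨Finset.mem_univ _, h6⟩)
          exact ⟨i, ⟨e', h5⟩, hi, rfl⟩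
      refine ⟨φ, (key φ).mpr (fun e' he' => hS2 e' ((hvals e').mp he').2), ?_⟩
      simp only [Equiv.apply_symm_apply]
      apply (hright (NI.subst H (vals φ) x)).mpr
      apply hS3
      · intro e' he' heS
        unfold NI.subst
        rw [if_pos he']
        exact (hvals e').mpr ⟨he', heS⟩
      · intro e' he'
        unfold NI.subst
        rw [if_neg he']

end

end Pool.Agent.HM94.NI
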