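import Pool.Agent.W969.MC.Avg3

/-!
# Cliques and sunflowers: every large set of inputs carries a constraint satisfaction problem

The petals `P c` of a sunflower with core `Y` are indexed by the labels `c` (a number of a copy, a
constraint, a tuple of values); the sets `Y ∪ P c` are the inputs that are used. All other inputs get
values that do not depend on the instance. `Z` are universal vertices; all remaining vertices are
isolated.
-/

set_option linter.unusedSectionVars false
set_option linter.unusedVariables false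

namespace Pool.Agent.HM94.NI

open Finset Pool.Agent.W969.MC Pool.Agent.H560R2

section

variable {V I A Λ : Type} [Fintype V] [DecidableEq V] [Fintype I] [DecidableEq I] [Fintype A]
  [DecidableEq A] [Nonempty A] [Fintype Λ] [DecidableEq Λ] {n m' r p : ℕ}

/-- labels: copies, constraints, tuples of values -/
abbrev Lab (I A Λ : Type) (m' : ℕ) : Type := Fin m' × (I × (A → Λ))

/-- a sunflower with petals of size `p`, and a further set of vertices -/
structure Sun (I A Λ : Type) (m' n p : ℕ) where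
  P : Lab I A Λ m' → Finset (Fin n)
  Y : Finset (Fin n)
  Z : Finset (Fin n)
  hp : 1 ≤ p
  hP : ∀ c, (P c).card = p
  hPP : ∀ c c', c ≠ c' → Disjoint (P c) (P c')
  hPY : ∀ c, Disjoint (P c) Y
  hPZ : ∀ c, Disjoint (P c) Z
  hYZ : Disjoint Y Z

/-- compatible labels -/
def Cpt (h : I → A → V) (c c' : Lab I A Λ m') : Prop :=
  c.1 = c'.1 ∧ (c.2.1 = c'.2.1 → c = c') ∧ ∀ a a', h c.2.1 a = h c'.2.1 a' → c.2.2 a = c'.2.2 a'

/-- the sets of vertices that are consistent and have no missing tuple -/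
structure Pres (D : Sun I A Λ m' n p) (h : I → A → V) (y : Fin m' → Set (I × (A → Λ)))
    (e : Finset (Fin n)) : Prop where
  sub : ∀ v ∈ e, v ∈ D.Y ∨ v ∈ D.Z ∨ ∃ c, v ∈ D.P c
  cpt : ∀ c c', (∃ v ∈ e, v ∈ D.P c) → (∃ v ∈ e, v ∈ D.P c') → Cpt h c c'
  mem : ∀ c, D.Y ∪ D.P c ⊆ e → c.2 ∈ y c.1

variable {D : Sun I A Λ m' n p} {h : I → A → V} {y y' : Fin m' → Set (I × (A → Λ))}

lemma Sun.nonempty (D : Sun I A Λ m' n p) (c : Lab I A Λ m') : (D.P c).Nonempty := by
  rw [← Finset.card_pos, D.hP]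
  exact D.hp

lemma Sun.uniq (D : Sun I A Λ m' n p) {c c' : Lab I A Λ m'} {v : Fin n} (h1 : v ∈ D.P c)
    (h2 : v ∈ D.P c') : c = c' := by
  by_contra hne
  exact Finset.disjoint_left.mp (D.hPP c c' hne) h1 h2

lemma Pres.anti {e e' : Finset (Fin n)} (he : e ⊆ e') (hp : Pres D h y e') : Pres D h y e where
  sub v hv := hp.sub v (he hv)
  cpt c c' h1 h2 := by
    obtain ⟨v, h3, h4⟩ := h1
    obtain ⟨v', h5, h6⟩ := h2
    exact hp.cpt c c' ⟨v, he h3, h4⟩ ⟨v', he h5, h6⟩
  mem c hc := hp.mem c (hc.trans he)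

lemma Pres.mono (hy : ∀ j, y j ⊆ y' j) {e : Finset (Fin n)} (hp : Pres D h y e) :
    Pres D h y' e where
  sub := hp.sub
  cpt := hp.cpt
  mem c hc := hy _ (hp.mem c hc)

lemma pres_of_edges (hr : 2 ≤ r) (hrp : D.Y.card + p = r) {S : Finset (Fin n)}
    (hS : r ≤ S.card) (hall : ∀ e ⊆ S, e.card = r → Pres D h y e) : Pres D h y S where
  sub v hv := by
    obtain ⟨e, h1, h2, h3⟩ := Finset.exists_subsuperset_card_eq
      (Finset.singleton_subset_iff.mpr hv) (by rw [Finset.card_singleton]; omega) hS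
    exact (hall e h2 h3).sub v (h1 (Finset.mem_singleton_self v))
  cpt c c' h1 h2 := by
    obtain ⟨v, h3, h4⟩ := h1
    obtain ⟨v', h5, h6⟩ := h2
    obtain ⟨e, h7, h8, h9⟩ := Finset.exists_subsuperset_card_eq (s := {v, v'}) (t := S) (by
      intro x hx
      rw [Finset.mem_insert, Finset.mem_singleton] at hx
      rcases hx with rfl | rfl
      · exact h3
      · exact h5) (Finset.card_le_two.trans hr) hS
    exact (hall e h8 h9).cpt c c' ⟨v, h7 (Finset.mem_insert_self _ _), h4⟩
      ⟨v', h7 (Finset.mem_insert_of_mem (Finset.mem_singleton_self _)), h6⟩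
  mem c hc := by
    refine (hall (D.Y ∪ D.P c) hc ?_).mem c subset_rfl
    rw [Finset.card_union_of_disjoint (D.hPY c).symm, D.hP, hrp]

/-- a large consistent set of vertices gives a solution -/
lemma sol_of_pres [Nonempty Λ] (hI : 0 < Fintype.card I) {S : Finset (Fin n)}
    (hp : Pres D h y S) (hS : S.card = D.Y.card + D.Z.card + p * Fintype.card I) :
    ∃ j, ∃ p0 : V → Λ, (tu h (gr p0) : Set (I × (A → Λ))) ⊆ y j := by
  classical
  set Cs : Finset (Lab I A Λ m') := univ.filter (fun c => ∃ v ∈ S, v ∈ D.P c) with hCs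
  have hmemC : ∀ c ∈ Cs, ∃ v ∈ S, v ∈ D.P c := fun c hc => (Finset.mem_filter.mp hc).2
  have hinj : Set.InjOn (fun c : Lab I A Λ m' => c.2.1) Cs := by
    intro c hc c' hc' hcc
    exact (hp.cpt c c' (hmemC c hc) (hmemC c' hc')).2.1 hcc
  have hcardC : Cs.card ≤ Fintype.card I := by
    rw [← Finset.card_image_of_injOn hinj]
    exact Finset.card_le_univ _
  have hsub : S ⊆ (D.Y ∪ D.Z) ∪ Cs.biUnion D.P := by
    intro v hv
    rcases hp.sub v hv with h1 | h1 | ⟨c, hc⟩
    · exact Finset.mem_union_left _ (Finset.mem_union_left _ h1)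
    · exact Finset.mem_union_left _ (Finset.mem_union_right _ h1)
    · exact Finset.mem_union_right _ (Finset.mem_biUnion.mpr
        ⟨c, Finset.mem_filter.mpr ⟨mem_univ _, v, hv, hc⟩, hc⟩)
  have hle : ((D.Y ∪ D.Z) ∪ Cs.biUnion D.P).card ≤ D.Y.card + D.Z.card + p * Cs.card := by
    refine (Finset.card_union_le _ _).trans (Nat.add_le_add (Finset.card_union_le _ _) ?_)
    refine Finset.card_biUnion_le.trans ?_
    rw [Finset.sum_congr rfl (fun c _ => D.hP c), Finset.sum_const, smul_eq_mul, mul_comm]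
  have hcardS := Finset.card_le_card hsub
  have hpC : p * Fintype.card I ≤ p * Cs.card := by omega
  have hCI : Fintype.card I = Cs.card :=
    le_antisymm (Nat.le_of_mul_le_mul_left hpC D.hp) hcardC
  have hSe : S = (D.Y ∪ D.Z) ∪ Cs.biUnion D.P := by
    apply Finset.eq_of_subset_of_card_le hsub
    rw [hS, hCI]
    exact hle
  have himg : Cs.image (fun c : Lab I A Λ m' => c.2.1) = univ := by
    apply Finset.eq_univ_of_card
    rw [Finset.card_image_of_injOn hinj, hCI]
  have hall : ∀ i : I, ∃ c ∈ Cs, c.2.1 = i := by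
    intro i
    have h1 : i ∈ Cs.image (fun c : Lab I A Λ m' => c.2.1) := by
      rw [himg]
      exact mem_univ _
    exact Finset.mem_image.mp h1
  choose c hcC hci using hall
  obtain ⟨i0⟩ := Fintype.card_pos_iff.mp hI
  have hj : ∀ i, (c i).1 = (c i0).1 := fun i =>
    (hp.cpt (c i) (c i0) (hmemC _ (hcC i)) (hmemC _ (hcC i0))).1
  have hpres : ∀ i, (c i).2 ∈ y (c i).1 := by
    intro i
    apply hp.mem
    rw [hSe]
    intro v hv
    rcases Finset.mem_union.mp hv with h1 | h1
    · exact Finset.mem_union_left _ (Finset.mem_union_left _ h1)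
    · exact Finset.mem_union_right _ (Finset.mem_biUnion.mpr ⟨c i, hcC i, h1⟩)
  let p0 : V → Λ := fun v => if hv : ∃ z : I × A, h z.1 z.2 = v then
    (c hv.choose.1).2.2 hv.choose.2 else Classical.choice inferInstance
  have hp0 : ∀ i a, p0 (h i a) = (c i).2.2 a := by
    intro i a
    have hv : ∃ z : I × A, h z.1 z.2 = h i a := ⟨(i, a), rfl⟩
    simp only [p0, dif_pos hv]
    apply (hp.cpt (c hv.choose.1) (c i) (hmemC _ (hcC _)) (hmemC _ (hcC i))).2.2
    rw [hci, hci]
    exact hv.choose_spec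
  refine ⟨(c i0).1, p0, ?_⟩
  rintro ⟨i, σ⟩ hu
  have hσ : σ = (c i).2.2 := by
    funext a
    have h1 := mem_tu.mp (Finset.mem_coe.mp hu) a
    rw [mem_gr] at h1
    rw [← hp0]
    exact h1.symm
  have h2 := hpres i
  rw [hj i] at h2
  have h3 : (i, σ) = (c i).2 := Prod.ext (hci i).symm hσ
  rw [h3]
  exact h2

/-- a solution gives a large consistent set of vertices -/
lemma pres_of_sol {j : Fin m'} {p0 : V → Λ} (hj : (tu h (gr p0) : Set (I × (A → Λ))) ⊆ y j) :
    ∃ S : Finset (Fin n), S.card = D.Y.card + D.Z.card + p * Fintype.card I ∧ Pres D h y S := by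
  classical
  set lab : I → Lab I A Λ m' := fun i => (j, (i, fun a => p0 (h i a))) with hlab
  have hlinj : Function.Injective lab := by
    intro i i' hh
    exact congrArg (fun c : Lab I A Λ m' => c.2.1) hh
  set B : Finset (Fin n) := univ.biUnion (fun i => D.P (lab i)) with hB
  have hYB : Disjoint (D.Y ∪ D.Z) B := by
    rw [Finset.disjoint_left]
    intro v hv hvB
    obtain ⟨i, -, hi⟩ := Finset.mem_biUnion.mp hvB
    rcases Finset.mem_union.mp hv with h1 | h1
    · exact Finset.disjoint_left.mp (D.hPY _) hi h1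
    · exact Finset.disjoint_left.mp (D.hPZ _) hi h1
  have key : ∀ v ∈ (D.Y ∪ D.Z) ∪ B, ∀ c, v ∈ D.P c → ∃ i, c = lab i := by
    intro v hv c hc
    rcases Finset.mem_union.mp hv with h1 | h1
    · rcases Finset.mem_union.mp h1 with h2 | h2
      · exact absurd h2 (Finset.disjoint_left.mp (D.hPY c) hc)
      · exact absurd h2 (Finset.disjoint_left.mp (D.hPZ c) hc)
    · obtain ⟨i, -, hi⟩ := Finset.mem_biUnion.mp h1
      exact ⟨i, D.uniq hc hi⟩
  refine ⟨(D.Y ∪ D.Z) ∪ B, ?_, ?_, ?_, ?_⟩
  · rw [Finset.card_union_of_disjoint hYB, Finset.card_union_of_disjoint D.hYZ, hB,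
      Finset.card_biUnion (fun i _ i' _ hne => D.hPP _ _ (fun hh => hne (hlinj hh))),
      Finset.sum_congr rfl (fun i _ => D.hP (lab i)), Finset.sum_const, smul_eq_mul, mul_comm,
      Finset.card_univ]
  · intro v hv
    rcases Finset.mem_union.mp hv with h1 | h1
    · rcases Finset.mem_union.mp h1 with h2 | h2
      · exact Or.inl h2
      · exact Or.inr (Or.inl h2)
    · obtain ⟨i, -, hi⟩ := Finset.mem_biUnion.mp h1
      exact Or.inr (Or.inr ⟨_, hi⟩)
  · rintro c c' ⟨v, hv, hvc⟩ ⟨v', hv', hvc'⟩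
    obtain ⟨i, rfl⟩ := key v hv c hvc
    obtain ⟨i', rfl⟩ := key v' hv' c' hvc'
    refine ⟨rfl, ?_, ?_⟩
    · intro hii
      have : i = i' := hii
      rw [this]
    · intro a a' haa
      have : h i a = h i' a' := haa
      show p0 (h i a) = p0 (h i' a')
      rw [this]
  · intro c hc
    obtain ⟨v, hv⟩ := D.nonempty c
    obtain ⟨i, rfl⟩ := key v (hc (Finset.mem_union_right _ hv)) c hv
    apply hj
    rw [Finset.mem_coe, mem_tu]
    intro a
    rw [mem_gr]

open Classical in
/-- the hypergraph -/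
noncomputable def enc (D : Sun I A Λ m' n p) (h : I → A → V) (r : ℕ)
    (y : Fin m' → Set (I × (A → Λ))) : {e : Finset (Fin n) // e.card = r} → Bool :=
  fun e => decide (Pres D h y e.1)

lemma enc_iff {e : {e : Finset (Fin n) // e.card = r}} :
    enc D h r y e = true ↔ Pres D h y e.1 := by
  classical
  unfold enc
  exact decide_eq_true_iff

lemma enc_mono (hy : ∀ j, y j ⊆ y' j) : enc D h r y ≤ enc D h r y' := by
  intro e
  rcases hx : enc D h r y e with _ | _
  · exact Bool.false_le _
  · have h2 : enc D h r y' e = true := enc_iff.mpr ((enc_iff.mp hx).mono hy)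
    rw [h2]

/-- cliques are solutions -/
theorem enc_clique [Nonempty Λ] (hr : 2 ≤ r) (hrp : D.Y.card + p = r)
    (hI : 0 < Fintype.card I) :
    HasClq n r (D.Y.card + D.Z.card + p * Fintype.card I) (enc D h r y) ↔
      ∃ j, ∃ p0 : V → Λ, (tu h (gr p0) : Set (I × (A → Λ))) ⊆ y j := by
  constructor
  · rintro ⟨S, hS, hcl⟩
    have hSr : r ≤ S.card := by
      rw [hS]
      have : p * 1 ≤ p * Fintype.card I := Nat.mul_le_mul_left _ hI
      omega
    have hp : Pres D h y S :=
      pres_of_edges hr hrp hSr (fun e he hc => enc_iff.mp (hcl ⟨e, hc⟩ he))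
    exact sol_of_pres hI hp hS
  · rintro ⟨j, p0, hj⟩
    obtain ⟨S, hS, hp⟩ := pres_of_sol (D := D) hj
    exact ⟨S, hS, fun e he => enc_iff.mpr (hp.anti he)⟩

lemma sub_eq (hrp : D.Y.card + p = r) {e : {e : Finset (Fin n) // e.card = r}}
    {c : Lab I A Λ m'} (hc : D.Y ∪ D.P c ⊆ e.1) : D.Y ∪ D.P c = e.1 := by
  apply Finset.eq_of_subset_of_card_le hc
  rw [Finset.card_union_of_disjoint (D.hPY c).symm, D.hP, hrp, e.2]

/-- the other inputs do not depend on the instance -/
lemma enc_const (hrp : D.Y.card + p = r) {e : {e : Finset (Fin n) // e.card = r}}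
    (he : ∀ c, D.Y ∪ D.P c ≠ e.1) (y y' : Fin m' → Set (I × (A → Λ))) :
    enc D h r y e = enc D h r y' e := by
  have key : ∀ y y' : Fin m' → Set (I × (A → Λ)), enc D h r y e = true →
      enc D h r y' e = true := by
    intro y y' h1
    have h2 := enc_iff.mp h1
    exact enc_iff.mpr ⟨h2.sub, h2.cpt, fun c hc => absurd (sub_eq hrp hc) (he c)⟩
  rcases h1 : enc D h r y e with _ | _
  · rcases h2 : enc D h r y' e with _ | _
    · rfl
    · rw [key y' y h2] at h1
      exact absurd h1 (by simp)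
  · exact (key y y' h1).symm

/-- each input depends on at most one tuple of each copy -/
lemma enc_narrow (hrp : D.Y.card + p = r) (y : Fin m' → Set (I × (A → Λ))) (J : Fin m')
    (e : {e : Finset (Fin n) // e.card = r}) :
    ∃ T' : Finset (I × (A → Λ)), T'.card ≤ 1 ∧ ∀ x x' : Set (I × (A → Λ)),
      (∀ u ∈ T', u ∈ x → u ∈ x') → enc D h r (Function.update y J x) e = true →
        enc D h r (Function.update y J x') e = true := by
  classical
  by_cases hex : ∃ c, D.Y ∪ D.P c = e.1
  · obtain ⟨c, hc⟩ := hex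
    refine ⟨{c.2}, by simp, ?_⟩
    intro x x' hxx hh
    have h1 := enc_iff.mp hh
    refine enc_iff.mpr ⟨h1.sub, h1.cpt, ?_⟩
    intro c' hc'
    have h2 := h1.mem c' hc'
    have h3 : D.Y ∪ D.P c' = D.Y ∪ D.P c := (sub_eq hrp hc').trans hc.symm
    have h4 : c' = c := by
      obtain ⟨v, hv⟩ := D.nonempty c'
      have h5 : v ∈ D.Y ∪ D.P c := by
        rw [← h3]
        exact Finset.mem_union_right _ hv
      rcases Finset.mem_union.mp h5 with h6 | h6
      · exact absurd h6 (Finset.disjoint_left.mp (D.hPY c') hv)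
      · exact D.uniq hv h6
    subst h4
    by_cases hJ : c'.1 = J
    · subst hJ
      rw [Function.update_self] at h2 ⊢
      exact hxx _ (Finset.mem_singleton_self _) h2
    · rw [Function.update_of_ne hJ] at h2 ⊢
      exact h2
  · push Not at hex
    refine ⟨∅, by simp, fun x x' _ hh => ?_⟩
    rw [enc_const hrp hex (Function.update y J x') (Function.update y J x)]
    exact hh

end

end Pool.Agent.HM94.NI
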