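import Pool.Agent.HM94.NI.Main

/-!
# The hard restriction with general parameters
-/

set_option linter.unusedSectionVars false
set_option linter.unusedVariables false

namespace Pool.Agent.HM94.NI

open Finset Pool.Agent.W969.MC Pool.Agent.H560R2

/-- everything that is needed for the lower bound: `g` is the advantage, `fr` the freedom and `Z` the
size -/
structure Hard (n r k : ℕ) (g fr Z : ℝ) (H : Set {e : Finset (Fin n) // e.card = r}) where
  (b2 b q M m s w m' p : ℕ)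
  h : Fin M → (Fin 2 × Fin b2) → Fin m
  D : Sun (Fin M) (Fin 2 × Fin b2) (Fin q) m' n p
  good : Good h (Fin q) b s w
  hM : 0 < M
  hm' : 1 ≤ m'
  hb2 : 0 < b2
  hq16 : 16 ≤ q
  hr : D.Y.card + p = r
  hk : D.Y.card + D.Z.card + p * M = k
  hH : ∀ c, ∃ e ∈ H, e.1 = D.Y ∪ D.P c
  hq : 16 / (q : ℝ) ≤ g
  hfree : fr ≤ g / 2 * m'
  hz : ∀ z : ℕ, (z : ℝ) < Z → z ≤ (q + 1) ^ m ∧
          16 * (z : ℝ) * 2 ^ (w / (2 * b) / b + 1) < g * (q : ℝ) ^ (w / (2 * b) / b + 1)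

section

variable {n r k : ℕ} {g fr Z : ℝ} {H : Set {e : Finset (Fin n) // e.card = r}}

/-- the values of the inputs outside of `H` -/
noncomputable def Hard.out (X : Hard n r k g fr Z H) (e : {e : Finset (Fin n) // e.card = r}) :
    Bool :=
  enc X.D X.h r (fun _ => ∅) e

lemma Hard.agree (X : Hard n r k g fr Z H)
    (y : Fin X.m' → Set (Fin X.M × ((Fin 2 × Fin X.b2) → Fin X.q)))
    {e : {e : Finset (Fin n) // e.card = r}} (he : e ∉ H) : enc X.D X.h r y e = X.out e := by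
  have : Nonempty (Fin 2 × Fin X.b2) := ⟨(0, ⟨0, X.hb2⟩)⟩
  apply enc_const X.hr
  intro c hc
  obtain ⟨e', h1, h2⟩ := X.hH c
  apply he
  have : e' = e := Subtype.ext (h2.trans hc)
  rwa [← this]

lemma Hard.clique (X : Hard n r k g fr Z H) (hr : 2 ≤ r)
    (y : Fin X.m' → Set (Fin X.M × ((Fin 2 × Fin X.b2) → Fin X.q))) :
    HasClq n r k (enc X.D X.h r y) ↔
      ∃ j, ∃ p0 : Fin X.m → Fin X.q,
        (tu X.h (gr p0) : Set (Fin X.M × ((Fin 2 × Fin X.b2) → Fin X.q))) ⊆ y j := by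
  have : Nonempty (Fin X.q) := ⟨⟨0, by have := X.hq16; omega⟩⟩
  have : Nonempty (Fin 2 × Fin X.b2) := ⟨(0, ⟨0, X.hb2⟩)⟩
  have h1 := enc_clique (D := X.D) (h := X.h) (y := y) hr X.hr (by
    rw [Fintype.card_fin]; exact X.hM)
  rw [Fintype.card_fin, X.hk] at h1
  exact h1

/-- The restriction is hard for randomised circuits with few further gates. -/
theorem Hard.rand (X : Hard n r k g fr Z H) (hr : 2 ≤ r) (R : Type) [Fintype R] [Nonempty R]
    (C : R → RC ↥H) (A0 : ℝ)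
    (hyes : ∀ x : {e : Finset (Fin n) // e.card = r} → Bool, (∀ e ∉ H, x e = X.out e) →
      HasClq n r k x →
      (A0 + g) * Fintype.card R ≤ ({ρ : R | (C ρ).acc (fun e => x e.1)}.ncard : ℝ))
    (hno : ∀ x : {e : Finset (Fin n) // e.card = r} → Bool, (∀ e ∉ H, x e = X.out e) →
      ¬ HasClq n r k x →
      ({ρ : R | (C ρ).acc (fun e => x e.1)}.ncard : ℝ) ≤ A0 * Fintype.card R)
    (hfree : ∀ ρ, ((C ρ).free : ℝ) ≤ fr) :
    ∃ ρ, Z ≤ ((C ρ).size : ℝ) := by
  classical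
  by_contra hcon
  push Not at hcon
  have : Nonempty (Fin 2 × Fin X.b2) := ⟨(0, ⟨0, X.hb2⟩)⟩
  refine csp_rand X.good (m' := X.m') C (fun y e => enc X.D X.h r y e.1) ?_ ?_ A0
    g ?_ ?_ (fun ρ => (hfree ρ).trans X.hfree) ?_ ?_ ?_
  · intro y y' hy e
    exact enc_mono hy e.1
  · intro y J e
    exact enc_narrow X.hr y J e.1
  · intro y hy
    exact hyes _ (fun e he => X.agree y he) ((X.clique hr y).mpr hy)
  · intro y hy
    exact hno _ (fun e he => X.agree y he) (fun hh => hy ((X.clique hr y).mp hh))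
  · intro ρ
    rw [Fintype.card_fin, Fintype.card_fin]
    exact (X.hz _ (hcon ρ)).1
  · rw [Fintype.card_fin]
    exact X.hq
  · intro ρ
    rw [Fintype.card_fin]
    exact (X.hz _ (hcon ρ)).2

end

lemma ev_nat {β : ℝ} (hβ : 0 < β) (C : ℝ) : ∃ n0 : ℕ, ∀ n : ℕ, n0 ≤ n → C ≤ (n : ℝ) ^ β :=
  ev_rpow hβ C

/-- the parameters for cliques of bounded size -/
theorem hard_exists (r : ℕ) (hr : 2 ≤ r) (ε : ℝ) (hε : 0 < ε) (c : ℝ) :
    ∃ k0 : ℕ, ∃ α : ℝ, 0 < α ∧ α ≤ 1 ∧ ∀ k, k0 ≤ k → ∃ n0 : ℕ, ∀ n, n0 ≤ n →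
      ∀ H : Set {e : Finset (Fin n) // e.card = r}, (n : ℝ) ^ ε ≤ H.ncard →
      Nonempty (Hard n r k ((n : ℝ) ^ (-α)) ((n : ℝ) ^ α) ((n : ℝ) ^ c) H) := by
  have hrR : (2 : ℝ) ≤ r := by exact_mod_cast hr
  have hrpos : (0 : ℝ) < r := by linarith
  set β : ℝ := min (ε / (14 * r)) (1 / 14) with hβ
  have hβpos : 0 < β := lt_min (by positivity) (by norm_num)
  have hβ1 : β ≤ 1 / 14 := min_le_right _ _
  have hβε : 14 * r * β ≤ ε := by
    have h1 : β ≤ ε / (14 * r) := min_le_left _ _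
    rw [le_div_iff₀ (by positivity)] at h1
    linarith
  obtain ⟨J, hJ⟩ := exists_nat_ge (|c| / β + 2)
  have hc0 : 0 ≤ |c| := abs_nonneg c
  have hJ2 : (2 : ℝ) ≤ J := by
    have : 0 ≤ |c| / β := by positivity
    linarith
  have hJ1 : 2 ≤ J := by exact_mod_cast hJ2
  have hcJ : |c| + 2 * β ≤ β * J := by
    have h1 : |c| / β ≤ J - 2 := by linarith
    rw [div_le_iff₀ hβpos] at h1
    linarith
  set w : ℕ := 32 * J with hw
  set s : ℕ := 2 * w with hs
  set m : ℕ := 23328 * s with hm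
  set M : ℕ := 2 * m with hM
  have hj : w / (2 * 4) / 4 + 1 = J + 1 := by omega
  have hmJ : J ≤ m := by omega
  set α : ℝ := β / 4 with hα
  have hαpos : 0 < α := by positivity
  refine ⟨r * (M + 1), α, hαpos, by linarith, ?_⟩
  intro k hk
  -- the conditions on `n`
  obtain ⟨n1, hn1⟩ := ev_nat hβpos (32 * (4 : ℝ) ^ (J + 1))
  obtain ⟨n2, hn2⟩ := ev_nat hβpos ((512 * ((2 * m + 2) * (Nat.log 2 w + 1)) + 64 : ℕ) : ℝ)
  obtain ⟨n3, hn3⟩ := ev_nat (β := ε / 2) (by positivity)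
    (((2 * (M : ℝ)) ^ r * r.factorial) + 1)
  obtain ⟨n4, hn4⟩ := ev_nat (β := 1 / 2) (by norm_num) ((k : ℝ) + r * (2 * M))
  obtain ⟨n5, hn5⟩ := ev_nat (β := β / 2) (by positivity) 64
  refine ⟨max (max n1 n2) (max (max n3 n4) (max n5 2)), ?_⟩
  intro n hn H hH
  have a1 := hn1 n ((le_max_left _ _).trans ((le_max_left _ _).trans hn))
  have a2 := hn2 n ((le_max_right _ _).trans ((le_max_left _ _).trans hn))
  have a3 := hn3 n ((le_max_left _ _).trans ((le_max_left _ _).trans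
    ((le_max_right _ _).trans hn)))
  have a4 := hn4 n ((le_max_right _ _).trans ((le_max_left _ _).trans
    ((le_max_right _ _).trans hn)))
  have a5 := hn5 n ((le_max_left _ _).trans ((le_max_right _ _).trans
    ((le_max_right _ _).trans hn)))
  have hn2' : 2 ≤ n := (le_max_right _ _).trans ((le_max_right _ _).trans
    ((le_max_right _ _).trans hn))
  have hnR : (2 : ℝ) ≤ n := by exact_mod_cast hn2'
  have hnpos : (0 : ℝ) < n := by linarith
  have hn1R : (1 : ℝ) ≤ n := by linarith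
  set B : ℝ := (n : ℝ) ^ β with hB
  have hB64 : 64 ≤ B := by
    refine le_trans ?_ a2
    push_cast
    have : (0 : ℝ) ≤ 512 * ((2 * (m : ℝ) + 2) * ((Nat.log 2 w : ℝ) + 1)) := by positivity
    linarith
  set q : ℕ := ⌊B⌋₊ with hq
  have hq1 : (q : ℝ) ≤ B := Nat.floor_le (by linarith)
  have hq2 : B < (q : ℝ) + 1 := Nat.lt_floor_add_one B
  have hq3 : B / 2 ≤ q := by linarith
  have hq4 : (32 : ℝ) ≤ q := by linarith
  have hq16 : 16 ≤ q := by
    have : (16 : ℝ) ≤ q := by linarith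
    exact_mod_cast this
  set m' : ℕ := ⌈B⌉₊ with hm'
  have hm1 : B ≤ m' := Nat.le_ceil B
  have hm2 : (m' : ℝ) < B + 1 := Nat.ceil_lt_add_one (by linarith)
  have hm3 : (m' : ℝ) ≤ 2 * B := by linarith
  have hm4 : 1 ≤ m' := by
    have : (1 : ℝ) ≤ m' := by linarith
    exact_mod_cast this
  have hM1 : 1 ≤ M := by omega
  -- the integer parameters
  have P : Pars 2 3 4 q M m s w := by
    refine ⟨by norm_num, by norm_num, by norm_num, by omega, by omega, ?_, by omega, by omega,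
      by omega, hq16, ?_⟩
    · norm_num
      omega
    · have h1 : Nat.clog 2 (q + 1) ≤ q := by
        rw [Nat.clog_le_iff_le_pow (by norm_num)]
        have := Nat.lt_two_pow_self (n := q)
        omega
      have h2 : 512 * ((2 * m + 2) * (Nat.log 2 w + 1)) + 64 ≤ 2 * q := by
        have h3 : ((512 * ((2 * m + 2) * (Nat.log 2 w + 1)) + 64 : ℕ) : ℝ) ≤ ((2 * q : ℕ) : ℝ) := by
          refine a2.trans ?_
          push_cast
          linarith
        exact_mod_cast h3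
      have h4 : 256 * ((2 * m + 2) * (Nat.log 2 w + 1)) ≤ q := by omega
      have h5 : 2 * (m * Nat.clog 2 (q + 1)) + 2 ≤ (2 * m + 2) * q := by
        have h6 : m * Nat.clog 2 (q + 1) ≤ m * q := Nat.mul_le_mul_left _ h1
        nlinarith
      calc 256 * (q * ((2 * (m * Nat.clog 2 (q + 1)) + 2) * (Nat.log 2 w + 1)))
          ≤ 256 * (q * (((2 * m + 2) * q) * (Nat.log 2 w + 1))) :=
            Nat.mul_le_mul_left _ (Nat.mul_le_mul_left _ (Nat.mul_le_mul_right _ h5))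
        _ = q * q * (256 * ((2 * m + 2) * (Nat.log 2 w + 1))) := by ring
        _ ≤ q * q * q := Nat.mul_le_mul_left _ h4
        _ = q ^ (4 - 1) := by ring
  obtain ⟨h, hG⟩ := P.good
  set N0 := m' * (M * q ^ (2 * 3)) with hN0
  have hN0R : (N0 : ℝ) ≤ 2 * M * (n : ℝ) ^ (7 * β) := by
    have h1 : (n : ℝ) ^ (7 * β) = B ^ 7 := by
      rw [hB, ← Real.rpow_natCast, ← Real.rpow_mul hnpos.le]
      congr 1
      push_cast
      ring
    rw [h1, hN0]
    push_cast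
    have h2 : (q : ℝ) ^ (2 * 3) ≤ B ^ 6 := pow_le_pow_left₀ (Nat.cast_nonneg _) hq1 6
    have hM0 : (0 : ℝ) ≤ M := Nat.cast_nonneg _
    calc (m' : ℝ) * (M * (q : ℝ) ^ (2 * 3)) ≤ (2 * B) * (M * B ^ 6) := by
          apply mul_le_mul hm3 (mul_le_mul_of_nonneg_left h2 hM0) (by positivity) (by positivity)
      _ = 2 * M * B ^ 7 := by ring
  have hN01 : 1 ≤ N0 := by
    have h1 : 1 ≤ q ^ (2 * 3) := Nat.one_le_pow _ _ (by omega)
    calc 1 = 1 * (1 * 1) := by norm_num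
      _ ≤ N0 := Nat.mul_le_mul hm4 (Nat.mul_le_mul hM1 h1)
  have hA : Flower H ((N0 : ℕ) : ℝ) := by
    apply flower_of_card hN01
    have h1 : ((N0 ^ r * r.factorial : ℕ) : ℝ) < H.ncard := by
      refine lt_of_lt_of_le ?_ hH
      push_cast
      have h2 : (N0 : ℝ) ^ r ≤ (2 * M * (n : ℝ) ^ (7 * β)) ^ r :=
        pow_le_pow_left₀ (Nat.cast_nonneg _) hN0R r
      have h3 : ((n : ℝ) ^ (7 * β)) ^ r ≤ (n : ℝ) ^ (ε / 2) := by
        rw [← Real.rpow_natCast, ← Real.rpow_mul hnpos.le]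
        apply Real.rpow_le_rpow_of_exponent_le hn1R
        linarith
      have h4 : (n : ℝ) ^ ε = (n : ℝ) ^ (ε / 2) * (n : ℝ) ^ (ε / 2) := by
        rw [← Real.rpow_add hnpos]
        congr 1
        ring
      have h5 : (0 : ℝ) < (n : ℝ) ^ (ε / 2) := by positivity
      have h6 : (0 : ℝ) < r.factorial := by exact_mod_cast Nat.factorial_pos r
      have h7 : (0 : ℝ) ≤ (2 * (M : ℝ)) ^ r := by positivity
      calc (N0 : ℝ) ^ r * r.factorial ≤ (2 * M * (n : ℝ) ^ (7 * β)) ^ r * r.factorial :=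
            mul_le_mul_of_nonneg_right h2 h6.le
        _ = ((2 * (M : ℝ)) ^ r * r.factorial) * ((n : ℝ) ^ (7 * β)) ^ r := by
            rw [mul_pow]
            ring
        _ ≤ ((2 * (M : ℝ)) ^ r * r.factorial) * (n : ℝ) ^ (ε / 2) :=
            mul_le_mul_of_nonneg_left h3 (by positivity)
        _ < (n : ℝ) ^ (ε / 2) * (n : ℝ) ^ (ε / 2) := by
            apply mul_lt_mul_of_pos_right _ h5
            linarith
        _ = (n : ℝ) ^ ε := h4.symm
    exact_mod_cast h1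
  have hB' : k + r * N0 ≤ n := by
    have h1 : ((k + r * N0 : ℕ) : ℝ) ≤ n := by
      push_cast
      have h2 : (n : ℝ) ^ (7 * β) ≤ (n : ℝ) ^ (1 / 2 : ℝ) :=
        Real.rpow_le_rpow_of_exponent_le hn1R (by linarith)
      have h3 : (n : ℝ) = (n : ℝ) ^ (1 / 2 : ℝ) * (n : ℝ) ^ (1 / 2 : ℝ) := by
        rw [← Real.rpow_add hnpos]
        norm_num
      have h4 : (1 : ℝ) ≤ (n : ℝ) ^ (1 / 2 : ℝ) := Real.one_le_rpow hn1R (by norm_num)
      have h5 : (r : ℝ) * N0 ≤ (r * (2 * M)) * (n : ℝ) ^ (1 / 2 : ℝ) := by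
        have hM0 : (0 : ℝ) ≤ M := Nat.cast_nonneg _
        calc (r : ℝ) * N0 ≤ r * (2 * M * (n : ℝ) ^ (7 * β)) :=
              mul_le_mul_of_nonneg_left hN0R hrpos.le
          _ ≤ r * (2 * M * (n : ℝ) ^ (1 / 2 : ℝ)) := by
              apply mul_le_mul_of_nonneg_left _ hrpos.le
              exact mul_le_mul_of_nonneg_left h2 (by positivity)
          _ = (r * (2 * M)) * (n : ℝ) ^ (1 / 2 : ℝ) := by ring
      have h6 : (k : ℝ) ≤ k * (n : ℝ) ^ (1 / 2 : ℝ) := by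
        have hk0 : (0 : ℝ) ≤ k := Nat.cast_nonneg _
        nlinarith
      calc (k : ℝ) + r * N0 ≤ k * (n : ℝ) ^ (1 / 2 : ℝ) +
            (r * (2 * M)) * (n : ℝ) ^ (1 / 2 : ℝ) := by linarith
        _ = ((k : ℝ) + r * (2 * M)) * (n : ℝ) ^ (1 / 2 : ℝ) := by ring
        _ ≤ (n : ℝ) ^ (1 / 2 : ℝ) * (n : ℝ) ^ (1 / 2 : ℝ) :=
            mul_le_mul_of_nonneg_right a4 (by linarith)
        _ = n := h3.symm
    exact_mod_cast h1
  obtain ⟨p, D, h8, h9, h10⟩ := sun_exists hM1 hq16 (by norm_num : 0 < 3) hm4 H hA hk hB'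
  have hneg : (n : ℝ) ^ (-α) = 1 / (n : ℝ) ^ α := by
    rw [Real.rpow_neg hnpos.le]
    simp
  have hαp : (0 : ℝ) < (n : ℝ) ^ α := by positivity
  have hBα : B = (n : ℝ) ^ α * (n : ℝ) ^ α * (n : ℝ) ^ (β / 2) := by
    rw [hB, ← Real.rpow_add hnpos, ← Real.rpow_add hnpos]
    congr 1
    rw [hα]
    ring
  have h1α : (1 : ℝ) ≤ (n : ℝ) ^ α := Real.one_le_rpow hn1R hαpos.le
  have hB3 : 64 * ((n : ℝ) ^ α * (n : ℝ) ^ α) ≤ B := by
    rw [hBα, mul_comm (64 : ℝ)]
    exact mul_le_mul_of_nonneg_left a5 (by positivity)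
  refine ⟨⟨3, 4, q, M, m, s, w, m', p, h, D, hG, by omega, hm4, by norm_num, hq16, h8, h9, h10,
    ?_, ?_, ?_⟩⟩
  · -- the error
    rw [hneg, div_le_div_iff₀ (by linarith) hαp]
    nlinarith
  · rw [hneg]
    have h1 : 1 / (n : ℝ) ^ α / 2 * m' = m' / (2 * (n : ℝ) ^ α) := by
      field_simp
    rw [h1, le_div_iff₀ (by positivity)]
    nlinarith
  · intro z hz
    have hcJ' : c + 2 * β ≤ β * J := by
      have := le_abs_self c
      linarith
    constructor
    · have h1 : ((z : ℕ) : ℝ) ≤ (((q + 1) ^ m : ℕ) : ℝ) := by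
        push_cast
        calc (z : ℝ) ≤ (n : ℝ) ^ c := hz.le
          _ ≤ (n : ℝ) ^ (β * J) := Real.rpow_le_rpow_of_exponent_le hn1R (by linarith)
          _ = B ^ J := by
              rw [hB, ← Real.rpow_natCast, ← Real.rpow_mul hnpos.le]
          _ ≤ ((q : ℝ) + 1) ^ J := pow_le_pow_left₀ (by linarith) hq2.le J
          _ ≤ ((q : ℝ) + 1) ^ m := pow_le_pow_right₀ (by linarith) hmJ
      exact_mod_cast h1
    · rw [hj, hneg, one_div, inv_mul_eq_div, lt_div_iff₀ hαp]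
      have h2 : (B / 2) ^ (J + 1) ≤ (q : ℝ) ^ (J + 1) :=
        pow_le_pow_left₀ (by linarith) hq3 _
      have h3 : B ^ (J + 1) = (n : ℝ) ^ (β * J) * B := by
        rw [pow_succ]
        congr 1
        rw [hB, ← Real.rpow_natCast, ← Real.rpow_mul hnpos.le]
      have h4 : (n : ℝ) ^ c * (n : ℝ) ^ α ≤ (n : ℝ) ^ (β * J) := by
        rw [← Real.rpow_add hnpos]
        apply Real.rpow_le_rpow_of_exponent_le hn1R
        rw [hα]
        linarith
      have h5 : (0 : ℝ) < (n : ℝ) ^ c := by positivity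
      have h6 : (0 : ℝ) < 2 ^ (J + 1) := by positivity
      calc 16 * (z : ℝ) * 2 ^ (J + 1) * (n : ℝ) ^ α
          < 16 * (n : ℝ) ^ c * 2 ^ (J + 1) * (n : ℝ) ^ α := by
            apply mul_lt_mul_of_pos_right _ hαp
            apply mul_lt_mul_of_pos_right _ h6
            linarith
        _ = 16 * 2 ^ (J + 1) * ((n : ℝ) ^ c * (n : ℝ) ^ α) := by ring
        _ ≤ 16 * 2 ^ (J + 1) * (n : ℝ) ^ (β * J) := mul_le_mul_of_nonneg_left h4 (by positivity)
        _ ≤ (B / 2) ^ (J + 1) := by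
            rw [div_pow, h3, le_div_iff₀ h6]
            have h7 : (16 : ℝ) * 2 ^ (J + 1) * 2 ^ (J + 1) ≤ B := by
              have h8 : (2 : ℝ) ^ (J + 1) * 2 ^ (J + 1) = 4 ^ (J + 1) := by
                rw [← mul_pow]
                norm_num
              rw [mul_assoc, h8]
              have : (0 : ℝ) < 4 ^ (J + 1) := by positivity
              linarith
            have h9 : (0 : ℝ) < (n : ℝ) ^ (β * J) := by positivity
            calc 16 * 2 ^ (J + 1) * (n : ℝ) ^ (β * J) * 2 ^ (J + 1)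
                = (n : ℝ) ^ (β * J) * (16 * 2 ^ (J + 1) * 2 ^ (J + 1)) := by ring
              _ ≤ (n : ℝ) ^ (β * J) * B := mul_le_mul_of_nonneg_left h7 h9.le
        _ ≤ (q : ℝ) ^ (J + 1) := h2

end Pool.Agent.HM94.NI
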