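import Pool.Agent.HM94.NI.Main

/-!
# Circuits of polynomial size negate almost all inputs
-/

set_option linter.unusedSectionVars false
set_option linter.unusedVariables false

namespace Pool.Agent.HM94.NI

open Finset Pool.Agent.W969.MC Pool.Agent.H560R2

/-- powers of the logarithm -/
lemma ev_log {η : ℝ} (hη : 0 < η) (C : ℝ) :
    ∃ N0 : ℕ, ∀ N : ℕ, N0 ≤ N → C ≤ (Real.log N) ^ η := by
  have h := (tendsto_rpow_atTop hη).comp
    (Real.tendsto_log_atTop.comp (tendsto_natCast_atTop_atTop (R := ℝ)))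
  obtain ⟨N0, hN0⟩ := Filter.eventually_atTop.mp (h.eventually_ge_atTop C)
  exact ⟨N0, fun N hN => hN0 N hN⟩

/-- the parameter `l` for superpolynomial bounds -/
lemma choose_l {ε : ℝ} (hε : 0 < ε) (c : ℝ) :
    ∃ η : ℝ, 0 < η ∧ ∀ δ : ℝ, 0 < δ → ∀ l0 : ℕ, ∃ n0 : ℕ, ∀ n : ℕ, n0 ≤ n →
      1 ≤ Real.log n ∧ ∃ l : ℕ, l0 ≤ l ∧ (l : ℝ) ≤ (Real.log n) ^ (1 + ε) ∧
        (l : ℝ) ^ (2 + η) ≤ (Real.log n) ^ (2 + ε) ∧ (n : ℝ) ^ c < (l : ℝ) ^ (δ * l) := by
  set η : ℝ := min 1 (ε / 4) with hη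
  have hηpos : 0 < η := lt_min one_pos (by positivity)
  have hη1 : η ≤ 1 := min_le_left _ _
  have hη4 : 4 * η ≤ ε := by
    have := min_le_right 1 (ε / 4)
    rw [← hη] at this
    linarith
  refine ⟨η, hηpos, ?_⟩
  intro δ hδ l0
  obtain ⟨N1, hN1⟩ := ev_log (η := 1 + η) (by linarith) (2 * ((l0 : ℝ) + 3))
  obtain ⟨N2, hN2⟩ := ev_log (η := η) hηpos (2 * (|c| + 1) / δ)
  refine ⟨max (max N1 N2) 4, ?_⟩
  intro n hn
  have a1 := hN1 n ((le_max_left _ _).trans ((le_max_left _ _).trans hn))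
  have a2 := hN2 n ((le_max_right _ _).trans ((le_max_left _ _).trans hn))
  have hnR : (4 : ℝ) ≤ n := by exact_mod_cast (le_max_right _ _).trans hn
  have hnpos : (0 : ℝ) < n := by linarith
  have hlog1 : 1 ≤ Real.log n := by
    rw [Real.le_log_iff_exp_le hnpos]
    have := Real.exp_one_lt_d9
    linarith
  have hlog0 : 0 < Real.log n := by linarith
  refine ⟨hlog1, ?_⟩
  set L : ℝ := Real.log n with hL
  set l : ℕ := ⌊L ^ (1 + η)⌋₊ with hl
  have hl1 : (l : ℝ) ≤ L ^ (1 + η) := Nat.floor_le (by positivity)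
  have hl2 : L ^ (1 + η) - 1 < l := Nat.sub_one_lt_floor _
  have hl0' : (0 : ℝ) ≤ l0 := Nat.cast_nonneg _
  have hl3 : L ^ (1 + η) / 2 ≤ l := by linarith
  have hl4 : (l0 : ℝ) + 3 ≤ l := by linarith
  have hl5 : (3 : ℝ) ≤ l := by linarith
  have hlpos : (0 : ℝ) < l := by linarith
  refine ⟨l, ?_, ?_, ?_, ?_⟩
  · have : (l0 : ℝ) ≤ l := by linarith
    exact_mod_cast this
  · refine hl1.trans (Real.rpow_le_rpow_of_exponent_le hlog1 (by linarith))
  · calc (l : ℝ) ^ (2 + η) ≤ (L ^ (1 + η)) ^ (2 + η) :=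
          Real.rpow_le_rpow hlpos.le hl1 (by linarith)
      _ = L ^ ((1 + η) * (2 + η)) := by rw [← Real.rpow_mul hlog0.le]
      _ ≤ L ^ (2 + ε) := Real.rpow_le_rpow_of_exponent_le hlog1 (by nlinarith)
  · have hll : 1 ≤ Real.log l := by
      rw [Real.le_log_iff_exp_le hlpos]
      have := Real.exp_one_lt_d9
      linarith
    rw [Real.rpow_def_of_pos hnpos, Real.rpow_def_of_pos hlpos]
    apply Real.exp_lt_exp.mpr
    have h1 : L ^ (1 + η) = L * L ^ η := by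
      rw [Real.rpow_add hlog0, Real.rpow_one]
    have h2 : 2 * (|c| + 1) ≤ L ^ η * δ := by
      rw [div_le_iff₀ hδ] at a2
      exact a2
    have h3 : (|c| + 1) * L ≤ δ * l := by
      have h4 : δ * (L ^ (1 + η) / 2) ≤ δ * l := mul_le_mul_of_nonneg_left hl3 hδ.le
      rw [h1] at h4
      nlinarith
    have h5 : δ * l * 1 ≤ δ * l * Real.log l := mul_le_mul_of_nonneg_left hll (by positivity)
    have h6 : c ≤ |c| := le_abs_self c
    have h7 : L * c ≤ L * |c| := mul_le_mul_of_nonneg_left h6 hlog0.le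
    calc L * c ≤ L * |c| := h7
      _ < (|c| + 1) * L := by nlinarith
      _ ≤ Real.log l * (δ * l) := by linarith

/-- superpolynomial lower bounds if `H` contains a large sunflower -/
theorem poly_flower (r : ℕ) (hr : 2 ≤ r) (ε : ℝ) (hε : 0 < ε) (c : ℝ) :
    ∃ n0 : ℕ, ∀ n k : ℕ, n0 ≤ n → (Real.log n) ^ (1 + ε) ≤ k →
      (k : ℝ) + (Real.log n) ^ (2 + ε) ≤ n →
      ∀ H : Set {e : Finset (Fin n) // e.card = r}, Flower H ((Real.log n) ^ (2 + ε)) →
      ∀ (f : ({e : Finset (Fin n) // e.card = r} → Bool) → Bool) (s : ℕ),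
        (∀ x, f x = true ↔ HasClq n r k x) → Computes H s f → (n : ℝ) ^ c < s := by
  obtain ⟨η, hη, h1⟩ := choose_l hε c
  obtain ⟨δ, hδ, l0, h2⟩ := data_exists r hr η hη
  obtain ⟨n0, h3⟩ := h1 δ hδ l0
  refine ⟨n0, ?_⟩
  intro n k hn hk hkn H hH f s hf hs
  obtain ⟨hL, l, h4, h5, h6, h7⟩ := h3 n hn
  have hlk : l ≤ k := by
    have := h5.trans hk
    exact_mod_cast this
  have hF : Flower H ((l : ℝ) ^ (2 + η)) := by
    obtain ⟨Q, hQ1, hQ2, hQ3⟩ := hH
    exact ⟨Q, hQ1, h6.trans hQ2, hQ3⟩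
  obtain ⟨X⟩ := h2 n k l h4 hlk (by linarith) H hF
  exact h7.trans_le (X.prog hr hs hf)

/-- superpolynomial lower bounds if `H` is large -/
theorem large_flower (r : ℕ) (hr : 2 ≤ r) (ε : ℝ) (hε : 0 < ε) :
    ∃ n0 : ℕ, ∀ n : ℕ, n0 ≤ n → ∀ H : Set {e : Finset (Fin n) // e.card = r},
      (Real.log n) ^ (2 * (r : ℝ) + ε) ≤ H.ncard →
      1 ≤ Real.log n ∧ Flower H ((Real.log n) ^ (2 + ε / (2 * r))) := by
  have hrR : (2 : ℝ) ≤ r := by exact_mod_cast hr
  obtain ⟨N1, hN1⟩ := ev_log (η := ε / 2) (by positivity) (2 ^ r * r.factorial + 1)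
  refine ⟨max N1 4, ?_⟩
  intro n hn H hH
  have a1 := hN1 n ((le_max_left _ _).trans hn)
  have hnR : (4 : ℝ) ≤ n := by exact_mod_cast (le_max_right _ _).trans hn
  have hnpos : (0 : ℝ) < n := by linarith
  have hlog1 : 1 ≤ Real.log n := by
    rw [Real.le_log_iff_exp_le hnpos]
    have := Real.exp_one_lt_d9
    linarith
  refine ⟨hlog1, ?_⟩
  set L : ℝ := Real.log n with hL
  have hlog0 : 0 < L := by linarith
  set A : ℝ := L ^ (2 + ε / (2 * r)) with hA
  have hA1 : 1 ≤ A := Real.one_le_rpow hlog1 (by positivity)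
  set N : ℕ := ⌈A⌉₊ with hN
  have hN1' : A ≤ N := Nat.le_ceil _
  have hN2 : (N : ℝ) < A + 1 := Nat.ceil_lt_add_one (by linarith)
  have hN3 : (N : ℝ) ≤ 2 * A := by linarith
  have hN4 : 1 ≤ N := by
    have : (1 : ℝ) ≤ N := hA1.trans hN1'
    exact_mod_cast this
  have hlt : N ^ r * r.factorial < H.ncard := by
    have h1 : ((N ^ r * r.factorial : ℕ) : ℝ) < H.ncard := by
      refine lt_of_lt_of_le ?_ hH
      push_cast
      have h2 : (N : ℝ) ^ r ≤ (2 * A) ^ r := pow_le_pow_left₀ (Nat.cast_nonneg _) hN3 r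
      have h3 : A ^ r = L ^ (2 * (r : ℝ) + ε / 2) := by
        rw [hA, ← Real.rpow_natCast, ← Real.rpow_mul hlog0.le]
        congr 1
        field_simp
      have h4 : L ^ (2 * (r : ℝ) + ε) = L ^ (2 * (r : ℝ) + ε / 2) * L ^ (ε / 2) := by
        rw [← Real.rpow_add hlog0]
        congr 1
        ring
      have h5 : (0 : ℝ) < L ^ (2 * (r : ℝ) + ε / 2) := by positivity
      have h6 : (0 : ℝ) < r.factorial := by exact_mod_cast Nat.factorial_pos r
      calc (N : ℝ) ^ r * r.factorial ≤ (2 * A) ^ r * r.factorial :=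
            mul_le_mul_of_nonneg_right h2 h6.le
        _ = L ^ (2 * (r : ℝ) + ε / 2) * (2 ^ r * r.factorial) := by
            rw [mul_pow, h3]
            ring
        _ < L ^ (2 * (r : ℝ) + ε / 2) * L ^ (ε / 2) := by
            apply mul_lt_mul_of_pos_left _ h5
            linarith
        _ = L ^ (2 * (r : ℝ) + ε) := h4.symm
    exact_mod_cast h1
  obtain ⟨Q, hQ1, hQ2, hQ3⟩ := flower_of_card hN4 hlt
  exact ⟨Q, hQ1, hN1'.trans hQ2, hQ3⟩

theorem poly_large (r : ℕ) (hr : 2 ≤ r) (ε : ℝ) (hε : 0 < ε) (c : ℝ) :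
    ∃ n0 : ℕ, ∀ n k : ℕ, n0 ≤ n → (Real.log n) ^ (1 + ε) ≤ k →
      (k : ℝ) + (Real.log n) ^ (2 + ε) ≤ n →
      ∀ H : Set {e : Finset (Fin n) // e.card = r},
      Flower H ((Real.log n) ^ (2 + ε)) ∨ (Real.log n) ^ (2 * (r : ℝ) + ε) ≤ H.ncard →
      ∀ (f : ({e : Finset (Fin n) // e.card = r} → Bool) → Bool) (s : ℕ),
        (∀ x, f x = true ↔ HasClq n r k x) → Computes H s f → (n : ℝ) ^ c < s := by
  have hrR : (2 : ℝ) ≤ r := by exact_mod_cast hr
  obtain ⟨n1, h1⟩ := poly_flower r hr ε hε c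
  have hε' : 0 < ε / (2 * r) := by positivity
  have hε'' : ε / (2 * r) ≤ ε := by
    rw [div_le_iff₀ (by positivity)]
    nlinarith
  obtain ⟨n2, h2⟩ := poly_flower r hr (ε / (2 * r)) hε' c
  obtain ⟨n3, h3⟩ := large_flower r hr ε hε
  refine ⟨max n1 (max n2 n3), ?_⟩
  intro n k hn hk hkn H hH f s hf hs
  rcases hH with hH | hH
  · exact h1 n k ((le_max_left _ _).trans hn) hk hkn H hH f s hf hs
  · obtain ⟨hL, h4⟩ := h3 n ((le_max_right _ _).trans ((le_max_right _ _).trans hn)) H hH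
    refine h2 n k ((le_max_left _ _).trans ((le_max_right _ _).trans hn)) ?_ ?_ H h4 f s hf hs
    · exact (Real.rpow_le_rpow_of_exponent_le hL (by linarith)).trans hk
    · have := Real.rpow_le_rpow_of_exponent_le hL (show 2 + ε / (2 * r) ≤ 2 + ε by linarith)
      linarith

end Pool.Agent.HM94.NI
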