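import Pool.Agent.HM94.NI.ToRC
import Pool.Agent.HM94.NI.Poly

/-!
# Reductions of the clique problem that do not negate the inputs of `H`
-/

set_option linter.unusedSectionVars false
set_option linter.unusedVariables false

namespace Pool.Agent.HM94.NI

open Finset Pool.Agent.W969.MC Pool.Agent.H560R2

/-- No compressions. -/
theorem no_compression (r : ℕ) (hr : 2 ≤ r) (ε : ℝ) (hε : 0 < ε) (c : ℝ) :
    ∃ k0 : ℕ, ∃ α : ℝ, 0 < α ∧ α ≤ 1 ∧ ∀ k, k0 ≤ k → ∃ n0 : ℕ, ∀ n, n0 ≤ n →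
      ∀ H : Set {e : Finset (Fin n) // e.card = r}, (n : ℝ) ^ ε ≤ H.ncard →
      ∃ o : {e : Finset (Fin n) // e.card = r} → Bool,
      ∀ (R : Type) [Fintype R] [Nonempty R] (t N : ℕ)
        (L : R → List (({e : Finset (Fin n) // e.card = r} → Bool) → Bool))
        (out : R → Fin N → ({e : Finset (Fin n) // e.card = r} → Bool) → Bool)
        (D : R → (Fin N → Bool) → Prop),
        (∀ ρ, TProg H t (L ρ)) → (∀ ρ, ((L ρ).length : ℝ) ≤ (n : ℝ) ^ c) →
        (∀ ρ j, Available (L ρ) (out ρ j)) → (((N + 1) * 2 ^ t : ℕ) : ℝ) ≤ (n : ℝ) ^ α →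
        ∃ x : {e : Finset (Fin n) // e.card = r} → Bool, (∀ e ∉ H, x e = o e) ∧
          ({ρ : R | D ρ (fun j => out ρ j x) ↔ HasClq n r k x}.ncard : ℝ) <
            (1 / 2 + (n : ℝ) ^ (-α)) * Fintype.card R := by
  classical
  obtain ⟨k0, α, hα, hα1, h1⟩ := hard_exists r hr ε hε (max c 1 + 1)
  refine ⟨k0, α, hα, hα1, ?_⟩
  intro k hk
  obtain ⟨n0, h2⟩ := h1 k hk
  refine ⟨max n0 5, ?_⟩
  intro n hn H hH
  obtain ⟨X⟩ := h2 n ((le_max_left _ _).trans hn) H hH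
  have hnR : (5 : ℝ) ≤ n := by exact_mod_cast (le_max_right _ _).trans hn
  have hnpos : (0 : ℝ) < n := by linarith
  have hn1 : (1 : ℝ) ≤ n := by linarith
  have hHne : H.Nonempty := by
    apply Set.nonempty_of_ncard_ne_zero
    intro h0
    rw [h0] at hH
    have : (0 : ℝ) < (n : ℝ) ^ ε := by positivity
    simp only [Nat.cast_zero] at hH
    linarith
  obtain ⟨e0, he0⟩ := hHne
  refine ⟨X.out, ?_⟩
  intro R _ _ t N L out D hL hs hout hfr
  by_contra hcon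
  push Not at hcon
  have hC : ∀ ρ, ∃ C : RC ↥H, C.free ≤ 2 ^ t * (N + 1) ∧ C.size ≤ (L ρ).length + 1 + t + N ∧
      ∀ x, (∀ e ∉ H, x e = X.out e) →
        (C.acc (fun e => x e.1) ↔ D ρ (fun j => out ρ j x)) := fun ρ =>
    to_rc X.out ⟨e0, he0⟩ (hL ρ) (out ρ) (hout ρ) (D ρ)
  choose C hC1 hC2 hC3 using hC
  have hR : (0 : ℝ) < Fintype.card R := by exact_mod_cast Fintype.card_pos
  have hg : (0 : ℝ) < (n : ℝ) ^ (-α) := by positivity
  obtain ⟨ρ, hρ⟩ := X.rand hr R C (1 / 2) (by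
    intro x hx hq
    refine (hcon x hx).trans (le_of_eq ?_)
    congr 2
    ext ρ
    simp only [Set.mem_ofPred_eq, hC3 ρ x hx, hq, iff_true]) (by
    intro x hx hq
    have h3 := hcon x hx
    have h4 : {ρ : R | D ρ (fun j => out ρ j x) ↔ HasClq n r k x} =
        {ρ : R | (C ρ).acc (fun e => x e.1)}ᶜ := by
      ext ρ
      simp only [Set.mem_ofPred_eq, Set.mem_compl_iff, hC3 ρ x hx, hq, iff_false]
    have h5 := Set.ncard_add_ncard_compl {ρ : R | (C ρ).acc (fun e => x e.1)}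
    rw [Nat.card_eq_fintype_card] at h5
    rw [h4] at h3
    have h6 : (({ρ : R | (C ρ).acc (fun e => x e.1)}.ncard : ℕ) : ℝ) +
        ({ρ : R | (C ρ).acc (fun e => x e.1)}ᶜ.ncard : ℝ) = Fintype.card R := by
      exact_mod_cast h5
    nlinarith) (by
    intro ρ
    have h3 : ((C ρ).free : ℝ) ≤ ((2 ^ t * (N + 1) : ℕ) : ℝ) := by exact_mod_cast hC1 ρ
    refine h3.trans ?_
    rwa [mul_comm])
  have h3 : ((C ρ).size : ℝ) ≤ (n : ℝ) ^ c + 1 + t + N := by
    have h4 : ((C ρ).size : ℝ) ≤ (((L ρ).length + 1 + t + N : ℕ) : ℝ) := by exact_mod_cast hC2 ρ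
    push_cast at h4
    have := hs ρ
    linarith
  have hnα : (n : ℝ) ^ α ≤ n := by
    calc (n : ℝ) ^ α ≤ (n : ℝ) ^ (1 : ℝ) := Real.rpow_le_rpow_of_exponent_le hn1 hα1
      _ = n := Real.rpow_one _
  have h4 : (t : ℝ) + N + 1 ≤ n := by
    have h5 : t + N + 1 ≤ (N + 1) * 2 ^ t := by
      have h6 : t + 1 ≤ 2 ^ t := Nat.lt_two_pow_self
      calc t + N + 1 ≤ (N + 1) * (t + 1) := by nlinarith
        _ ≤ (N + 1) * 2 ^ t := Nat.mul_le_mul_left _ h6
    have h6 : ((t + N + 1 : ℕ) : ℝ) ≤ (((N + 1) * 2 ^ t : ℕ) : ℝ) := by exact_mod_cast h5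
    push_cast at h6 hfr
    linarith
  have h5 : (n : ℝ) ^ c ≤ (n : ℝ) ^ (max c 1) :=
    Real.rpow_le_rpow_of_exponent_le hn1 (le_max_left _ _)
  have h6 : (n : ℝ) ≤ (n : ℝ) ^ (max c 1) := by
    calc (n : ℝ) = (n : ℝ) ^ (1 : ℝ) := (Real.rpow_one _).symm
      _ ≤ _ := Real.rpow_le_rpow_of_exponent_le hn1 (le_max_right _ _)
  have h7 : (n : ℝ) ^ (max c 1 + 1) = (n : ℝ) ^ (max c 1) * n := by
    rw [Real.rpow_add hnpos, Real.rpow_one]
  rw [h7] at hρ
  nlinarith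

/-- enumeration of small finite sets -/
lemma enum_exists {X : Type} (C : Finset X) {m : ℕ} (h : C.card ≤ m) :
    ∃ φ : Fin m → Option X, ∀ x, (∃ i, φ i = some x) ↔ x ∈ C := by
  classical
  refine ⟨fun i => if h : (i : ℕ) < C.card then some (C.equivFin.symm ⟨i, h⟩).1 else none, ?_⟩
  intro x
  constructor
  · rintro ⟨i, hi⟩
    by_cases h1 : (i : ℕ) < C.card
    · simp only [h1, dif_pos, Option.some.injEq] at hi
      rw [← hi]
      exact (C.equivFin.symm ⟨i, h1⟩).2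
    · simp [h1] at hi
  · intro hx
    refine ⟨⟨(C.equivFin ⟨x, hx⟩).1, (C.equivFin ⟨x, hx⟩).2.trans_le h⟩, ?_⟩
    have h1 : ((C.equivFin ⟨x, hx⟩ : Fin C.card) : ℕ) < C.card := (C.equivFin ⟨x, hx⟩).2
    simp only [h1, dif_pos, Fin.eta, Equiv.symm_apply_apply]

/-- the number of clauses -/
lemma clause_card (X : Type) [Fintype X] (d : ℕ) :
    Nat.card {C : Finset X // C.card ≤ d} ≤ (Fintype.card X + 1) ^ d := by
  classical
  choose φ hφ using fun C : {C : Finset X // C.card ≤ d} => enum_exists C.1 C.2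
  have hinj : Function.Injective φ := by
    intro C C' h
    apply Subtype.ext
    ext x
    rw [← hφ C x, ← hφ C' x, h]
  have h1 := Nat.card_le_card_of_injective φ hinj
  refine h1.trans (le_of_eq ?_)
  rw [Nat.card_eq_fintype_card, Fintype.card_fun, Fintype.card_option, Fintype.card_fin]

/-- polylogarithmic numbers are small -/
lemma ev_polylog (g d : ℕ) {β : ℝ} (hβ : 0 < β) : ∃ n0 : ℕ, ∀ n : ℕ, n0 ≤ n →
    (((2 * (g * (Nat.log 2 n + 1)) + 1) ^ d : ℕ) : ℝ) ≤ (n : ℝ) ^ β := by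
  set η : ℝ := β / (2 * (d + 1)) with hη
  have hηpos : 0 < η := by positivity
  obtain ⟨n1, h1⟩ := ev_rpow (η := η) hηpos (2 * g * (2 / η + 1) + 1)
  refine ⟨max n1 1, ?_⟩
  intro n hn
  have hn1 : 1 ≤ n := (le_max_right _ _).trans hn
  have hnR : (1 : ℝ) ≤ n := by exact_mod_cast hn1
  have hnpos : (0 : ℝ) < n := by linarith
  have h2 := h1 n ((le_max_left _ _).trans hn)
  have h3 := natlog_le hηpos hn1
  have h4 : (1 : ℝ) ≤ (n : ℝ) ^ η := Real.one_le_rpow hnR hηpos.le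
  have h5 : (2 * ((g : ℝ) * ((Nat.log 2 n : ℝ) + 1)) + 1) ≤ (n : ℝ) ^ (2 * η) := by
    have h6 : (n : ℝ) ^ (2 * η) = (n : ℝ) ^ η * (n : ℝ) ^ η := by
      rw [← Real.rpow_add hnpos]
      congr 1
      ring
    rw [h6]
    have hg : (0 : ℝ) ≤ g := Nat.cast_nonneg _
    calc (2 * ((g : ℝ) * ((Nat.log 2 n : ℝ) + 1)) + 1)
        ≤ 2 * (g * ((2 / η + 1) * (n : ℝ) ^ η)) + 1 * (n : ℝ) ^ η := by
          have := mul_le_mul_of_nonneg_left h3 hg
          linarith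
      _ = (2 * g * (2 / η + 1) + 1) * (n : ℝ) ^ η := by ring
      _ ≤ (n : ℝ) ^ η * (n : ℝ) ^ η := mul_le_mul_of_nonneg_right h2 (by linarith)
  push_cast
  calc (2 * ((g : ℝ) * ((Nat.log 2 n : ℝ) + 1)) + 1) ^ d ≤ ((n : ℝ) ^ (2 * η)) ^ d :=
        pow_le_pow_left₀ (by positivity) h5 d
    _ = (n : ℝ) ^ (2 * η * d) := by
        rw [← Real.rpow_natCast, ← Real.rpow_mul hnpos.le]
    _ ≤ (n : ℝ) ^ β := by
        apply Real.rpow_le_rpow_of_exponent_le hnR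
        have h7 : 2 * η * (d + 1) = β := by
          rw [hη]
          field_simp
        nlinarith

/-- No reductions to `p-log-SAT`. -/
theorem no_reduction (r : ℕ) (hr : 2 ≤ r) (ε : ℝ) (hε : 0 < ε) (c : ℕ) :
    ∃ k0 : ℕ, ∃ α : ℝ, 0 < α ∧ ∀ k, k0 ≤ k → ∀ F G' d : ℕ, ∃ n0 : ℕ, ∀ n, n0 ≤ n →
      ∀ H : Set {e : Finset (Fin n) // e.card = r}, (n : ℝ) ^ ε ≤ H.ncard →
      ∃ o : {e : Finset (Fin n) // e.card = r} → Bool,
      ∀ (R : Type) [Fintype R] [Nonempty R] (t Q v : ℕ)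
        (L : R → List (({e : Finset (Fin n) // e.card = r} → Bool) → Bool))
        (out : R → Fin Q → {C : Finset (Fin v × Bool) // C.card ≤ d} →
          ({e : Finset (Fin n) // e.card = r} → Bool) → Bool)
        (D : R → (Fin Q → {C : Finset (Fin v × Bool) // C.card ≤ d} → Bool) → Prop),
        (∀ ρ, TProg H t (L ρ)) → (∀ ρ, (L ρ).length ≤ F * n ^ c) →
        (∀ ρ i C, Available (L ρ) (out ρ i C)) → v ≤ G' * (Nat.log 2 n + 1) →
        (((Q + 1) * 2 ^ t : ℕ) : ℝ) ≤ (n : ℝ) ^ α →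
        ∃ x : {e : Finset (Fin n) // e.card = r} → Bool, (∀ e ∉ H, x e = o e) ∧
          ({ρ : R | D ρ (fun i C => out ρ i C x) ↔ HasClq n r k x}.ncard : ℝ) <
            (1 / 2 + (n : ℝ) ^ (-α)) * Fintype.card R := by
  classical
  obtain ⟨k0, α, hα, hα1, h1⟩ := no_compression r hr ε hε (c + 1)
  refine ⟨k0, α / 2, by positivity, ?_⟩
  intro k hk F G' d
  obtain ⟨n0, h2⟩ := h1 k hk
  obtain ⟨n1, h3⟩ := ev_polylog G' d (β := α / 2) (by positivity)
  refine ⟨max (max n0 n1) (max F 2), ?_⟩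
  intro n hn H hH
  have hnf : F ≤ n := (le_max_left _ _).trans ((le_max_right _ _).trans hn)
  have hn2 : 2 ≤ n := (le_max_right _ _).trans ((le_max_right _ _).trans hn)
  have hnR : (2 : ℝ) ≤ n := by exact_mod_cast hn2
  have hnpos : (0 : ℝ) < n := by linarith
  obtain ⟨o, h4⟩ := h2 n ((le_max_left _ _).trans ((le_max_left _ _).trans hn)) H hH
  have h5 := h3 n ((le_max_right _ _).trans ((le_max_left _ _).trans hn))
  refine ⟨o, ?_⟩
  intro R _ _ t Q v L out D hL hs hout hv hfr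
  set K := Fintype.card (Fin Q × {C : Finset (Fin v × Bool) // C.card ≤ d}) with hK
  let e : Fin K ≃ Fin Q × {C : Finset (Fin v × Bool) // C.card ≤ d} :=
    (Fintype.equivFin _).symm
  have hcl : Fintype.card {C : Finset (Fin v × Bool) // C.card ≤ d} ≤ (2 * v + 1) ^ d := by
    have h6 := clause_card (Fin v × Bool) d
    rw [Nat.card_eq_fintype_card, Fintype.card_prod, Fintype.card_fin, Fintype.card_bool] at h6
    rwa [mul_comm v 2] at h6
  have hKle : K + 1 ≤ (Q + 1) * (2 * v + 1) ^ d := by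
    rw [hK, Fintype.card_prod, Fintype.card_fin]
    have h6 : 1 ≤ (2 * v + 1) ^ d := Nat.one_le_pow _ _ (by omega)
    have h7 := Nat.mul_le_mul_left Q hcl
    nlinarith
  have hvle : (2 * v + 1) ^ d ≤ (2 * (G' * (Nat.log 2 n + 1)) + 1) ^ d :=
    Nat.pow_le_pow_left (by omega) d
  obtain ⟨x, hx1, hx2⟩ := h4 R t K L (fun ρ j => out ρ (e j).1 (e j).2)
    (fun ρ b => D ρ (fun i C => b (e.symm (i, C)))) hL (by
      intro ρ
      have h6 : ((L ρ).length : ℝ) ≤ ((F * n ^ c : ℕ) : ℝ) := by exact_mod_cast hs ρ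
      refine h6.trans ?_
      push_cast
      have h7 : (n : ℝ) ^ ((c : ℝ) + 1) = n * (n : ℝ) ^ c := by
        rw [Real.rpow_add hnpos, Real.rpow_one, Real.rpow_natCast, mul_comm]
      rw [h7]
      apply mul_le_mul_of_nonneg_right _ (by positivity)
      exact_mod_cast hnf) (fun ρ j => hout ρ _ _) (by
      have h6 : (((K + 1) * 2 ^ t : ℕ) : ℝ) ≤
          ((((Q + 1) * 2 ^ t) * (2 * (G' * (Nat.log 2 n + 1)) + 1) ^ d : ℕ) : ℝ) := by
        have h7 : (K + 1) * 2 ^ t ≤ ((Q + 1) * 2 ^ t) * (2 * (G' * (Nat.log 2 n + 1)) + 1) ^ d := by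
          calc (K + 1) * 2 ^ t ≤ ((Q + 1) * (2 * v + 1) ^ d) * 2 ^ t := Nat.mul_le_mul_right _ hKle
            _ = ((Q + 1) * 2 ^ t) * (2 * v + 1) ^ d := by ring
            _ ≤ _ := Nat.mul_le_mul_left _ hvle
        exact_mod_cast h7
      refine h6.trans ?_
      rw [Nat.cast_mul]
      have h8 : (n : ℝ) ^ α = (n : ℝ) ^ (α / 2) * (n : ℝ) ^ (α / 2) := by
        rw [← Real.rpow_add hnpos]
        congr 1
        ring
      rw [h8]
      exact mul_le_mul hfr h5 (by positivity) (by positivity))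
  refine ⟨x, hx1, ?_⟩
  simp only [Equiv.apply_symm_apply] at hx2
  refine hx2.trans_le ?_
  apply mul_le_mul_of_nonneg_right _ (Nat.cast_nonneg _)
  have h9 : (n : ℝ) ^ (-α) ≤ (n : ℝ) ^ (-(α / 2)) :=
    Real.rpow_le_rpow_of_exponent_le (by linarith) (by linarith)
  linarith

end Pool.Agent.HM94.NI
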