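import Pool.Agent.W969.MC.Avg4

/-!
# The choice of the parameters, in terms of the number of labels
-/

set_option linter.unusedSectionVars false
set_option linter.unusedVariables false

namespace Pool.Agent.HM94.NI

open Finset Pool.Agent.W969.MC Pool.Agent.H560R2

/-- a lower bound for the number of constraints -/
lemma M_lower {δ : ℝ} (hδ : 0 < δ) {n l b2 b q M m s w m' : ℕ} (P : Pars 2 b2 b q M m s w)
    (hn2 : 2 ≤ n) (hl : 1 ≤ l) (hN : 2 * (m' * (M * (2 * q ^ b2))) ≤ n) (hm' : 1 ≤ m')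
    (H : ∀ z : ℕ, (z : ℝ) < (n : ℝ) ^ (δ * l) → z ≤ (q + 1) ^ m ∧
        8 * z * 2 ^ (w / (2 * b) / b + 1) < q ^ (w / (2 * b) / b + 1)) :
    δ * l / 4 ≤ M := by
  have hM : 1 ≤ M := by
    have := P.hM
    have := P.hm
    omega
  have hn1 : (1 : ℝ) < n := by exact_mod_cast (by omega : 1 < n)
  have hn0 : (0 : ℝ) < n := by linarith
  have hlR : (1 : ℝ) ≤ l := by exact_mod_cast hl
  have hj := P.j0_le (l := 2 * M) le_rfl le_rfl
  set j0 := w / (2 * b) / b + 1 with hj0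
  have hz : ((⌊(n : ℝ) ^ (δ * l / 2)⌋₊ : ℕ) : ℝ) < (n : ℝ) ^ (δ * l) := by
    refine lt_of_le_of_lt (Nat.floor_le (by positivity)) ?_
    apply Real.rpow_lt_rpow_of_exponent_lt hn1
    have : 0 < δ * l := by positivity
    linarith
  obtain ⟨-, h2⟩ := H _ hz
  set z := ⌊(n : ℝ) ^ (δ * l / 2)⌋₊ with hzd
  have h3 : z + 1 ≤ q ^ j0 := by
    have h4 : z * 1 ≤ 8 * z * 2 ^ j0 := by
      have : 1 ≤ 8 * 2 ^ j0 := Nat.one_le_iff_ne_zero.mpr (by positivity)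
      calc z * 1 ≤ z * (8 * 2 ^ j0) := Nat.mul_le_mul_left _ this
        _ = 8 * z * 2 ^ j0 := by ring
    omega
  have hqn : q ≤ n := by
    have h4 : q ≤ q ^ b2 := by
      have h5 : q ^ 1 ≤ q ^ b2 := Nat.pow_le_pow_right (by have := P.hq; omega) P.hb2
      simpa using h5
    have h6 : 1 * (1 * (1 * q ^ b2)) ≤ m' * (M * (2 * q ^ b2)) :=
      Nat.mul_le_mul hm' (Nat.mul_le_mul hM (Nat.mul_le_mul (by norm_num) le_rfl))
    omega
  have h4 : (n : ℝ) ^ (δ * l / 2) < (n : ℝ) ^ ((2 * M : ℕ) : ℝ) := by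
    have h5 : (n : ℝ) ^ (δ * l / 2) < z + 1 := Nat.lt_floor_add_one _
    have h6 : ((z : ℝ) + 1) ≤ (n : ℝ) ^ (2 * M : ℕ) := by
      have h7 : z + 1 ≤ n ^ (2 * M) := by
        refine h3.trans ((Nat.pow_le_pow_left hqn _).trans ?_)
        exact Nat.pow_le_pow_right (by omega) hj
      exact_mod_cast h7
    rw [Real.rpow_natCast]
    linarith
  have h5 := (Real.rpow_lt_rpow_left_iff hn1).mp h4
  push_cast at h5
  linarith

theorem pars_l (r : ℕ) (hr : 2 ≤ r) (ε : ℝ) (hε : 0 < ε) :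
    ∃ δ : ℝ, 0 < δ ∧ ∃ l0 : ℕ, ∀ l : ℕ, l0 ≤ l →
      ∃ b2 b q M m s w m' : ℕ, Pars 2 b2 b q M m s w ∧ r * (M + 1) ≤ l ∧ 1 ≤ m' ∧
        ((r.factorial * (m' * (M * q ^ (2 * b2))) : ℕ) : ℝ) < (l : ℝ) ^ (2 + ε) ∧
        16 / (q : ℝ) ≤ (l : ℝ) ^ (-δ) ∧ (l : ℝ) ^ δ ≤ (l : ℝ) ^ (-δ) / 2 * m' ∧
        ∀ z : ℕ, (z : ℝ) < (l : ℝ) ^ (δ * l) → z ≤ (q + 1) ^ m ∧
          8 * z * 2 ^ (w / (2 * b) / b + 1) < q ^ (w / (2 * b) / b + 1) ∧
          16 * (z : ℝ) * 2 ^ (w / (2 * b) / b + 1) <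
            (l : ℝ) ^ (-δ) * (q : ℝ) ^ (w / (2 * b) / b + 1) := by
  have hrR : (2 : ℝ) ≤ r := by exact_mod_cast hr
  have hrpos : (0 : ℝ) < r := by linarith
  obtain ⟨δ1, hδ1, l0, H⟩ := pars_exist 2 le_rfl (ε / 4) (by positivity)
  obtain ⟨l1, Hab⟩ := absorb hδ1
  obtain ⟨l2, hl2⟩ := ev_rpow (η := ε / 2) (by positivity) (2 * (r.factorial / δ1))
  refine ⟨δ1 / (8 * r), by positivity, max (max (2 * r * max l0 l1) l2) (8 * r ^ 3 + 2 * r), ?_⟩
  intro l hl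
  have hla : 2 * r * max l0 l1 ≤ l := (le_max_left _ _).trans ((le_max_left _ _).trans hl)
  have hlb : l2 ≤ l := (le_max_right _ _).trans ((le_max_left _ _).trans hl)
  have hlc : 8 * r ^ 3 + 2 * r ≤ l := (le_max_right _ _).trans hl
  have hr0 : 0 < r := by omega
  set l' := l / r with hl'
  -- `l'` is large
  have hl'1 : r * l' ≤ l := Nat.mul_div_le l r
  have hl'2 : l < r * (l' + 1) := Nat.lt_mul_div_succ l hr0
  have hl'pos : 1 ≤ l' := by
    rw [hl', Nat.one_le_div_iff hr0]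
    omega
  have hl'3 : l ≤ 2 * r * l' := by
    have h1 : r * (l' + 1) ≤ r * (2 * l') := Nat.mul_le_mul_left _ (by omega)
    calc l ≤ r * (l' + 1) := hl'2.le
      _ ≤ r * (2 * l') := h1
      _ = 2 * r * l' := by ring
  have hl'4 : max l0 l1 ≤ l' := by
    have h1 : 2 * r * max l0 l1 ≤ 2 * r * l' := hla.trans hl'3
    exact Nat.le_of_mul_le_mul_left h1 (by omega)
  have hl'R : (1 : ℝ) ≤ l' := by exact_mod_cast hl'pos
  have hl'0 : (0 : ℝ) < l' := by linarith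
  have hlR : (1 : ℝ) ≤ l := by
    have : 1 ≤ l := by omega
    exact_mod_cast this
  have hl0 : (0 : ℝ) < l := by linarith
  have hl'l : (l' : ℝ) ≤ l := by exact_mod_cast Nat.div_le_self l r
  have hll' : (l : ℝ) ≤ 2 * r * l' := by exact_mod_cast hl'3
  -- the number `n`
  set e : ℝ := 1 + 1 / ((2 : ℕ) : ℝ) + ε / 4 with he
  have he2 : e = 3 / 2 + ε / 4 := by rw [he]; norm_num
  set n := ⌈(l' : ℝ) ^ e⌉₊ with hn
  have hn1 : (l' : ℝ) ^ e ≤ n := Nat.le_ceil _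
  have hone : (1 : ℝ) ≤ (l' : ℝ) ^ e := Real.one_le_rpow hl'R (by rw [he2]; positivity)
  have hn2 : (n : ℝ) ≤ 2 * (l' : ℝ) ^ e := by
    have : (n : ℝ) < (l' : ℝ) ^ e + 1 := Nat.ceil_lt_add_one (by positivity)
    linarith
  have hnR : (1 : ℝ) ≤ n := hone.trans hn1
  have hnpos : (0 : ℝ) < n := by linarith
  -- `l ≤ n`
  have hln : (l : ℝ) ≤ n := by
    refine le_trans ?_ hn1
    have h1 : (4 : ℝ) * r ^ 2 ≤ l' := by
      have h2 : (8 : ℝ) * r ^ 3 ≤ 2 * r * l' := by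
        have h3 : 8 * r ^ 3 ≤ l := by omega
        have h4 : (8 : ℝ) * r ^ 3 ≤ l := by exact_mod_cast h3
        linarith
      have h5 : 2 * (r : ℝ) * (4 * r ^ 2) ≤ 2 * r * l' := by
        calc 2 * (r : ℝ) * (4 * r ^ 2) = 8 * r ^ 3 := by ring
          _ ≤ _ := h2
      exact le_of_mul_le_mul_left h5 (by positivity)
    have h2 : 2 * (r : ℝ) ≤ (l' : ℝ) ^ (1 / 2 : ℝ) := by
      have h3 : ((4 : ℝ) * r ^ 2) ^ (1 / 2 : ℝ) ≤ (l' : ℝ) ^ (1 / 2 : ℝ) :=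
        Real.rpow_le_rpow (by positivity) h1 (by norm_num)
      have h4 : ((4 : ℝ) * r ^ 2) ^ (1 / 2 : ℝ) = 2 * r := by
        rw [show (4 : ℝ) * r ^ 2 = (2 * r) ^ (2 : ℕ) by ring, ← Real.rpow_natCast,
          ← Real.rpow_mul (by positivity)]
        norm_num
      linarith
    calc (l : ℝ) ≤ 2 * r * l' := hll'
      _ ≤ (l' : ℝ) ^ (1 / 2 : ℝ) * (l' : ℝ) ^ (1 : ℝ) := by
        rw [Real.rpow_one]
        exact mul_le_mul_of_nonneg_right h2 hl'0.le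
      _ = (l' : ℝ) ^ (3 / 2 : ℝ) := by
        rw [← Real.rpow_add hl'0]
        norm_num
      _ ≤ (l' : ℝ) ^ e := by
        apply Real.rpow_le_rpow_of_exponent_le hl'R
        rw [he2]
        linarith
  obtain ⟨b2, b, q, M, m, s, w, m', P, h1, h2, h3, h4⟩ :=
    H n l' ((le_max_left _ _).trans hl'4) hn1
  have hm'1 : 1 ≤ m' := by
    have : (1 : ℝ) ≤ m' := (Real.one_le_rpow hnR hδ1.le).trans h3
    exact_mod_cast this
  have hn2N : 2 ≤ n := by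
    have h5 : (2 : ℝ) ≤ n := by
      refine le_trans ?_ hln
      have : 2 ≤ l := by omega
      exact_mod_cast this
    exact_mod_cast h5
  have hM := M_lower hδ1 P hn2N hl'pos h2 hm'1 h4
  obtain ⟨g1, g2, g3⟩ := Hab n l' q m (w / (2 * b) / b + 1) ((le_max_right _ _).trans hl'4)
    (by exact_mod_cast hl'l.trans hln) (Nat.le_add_left 1 _) (P.j0_le le_rfl h1) h4
  have hgm := g2 m' h3
  -- comparison of the powers
  have hδ2 : δ1 / (8 * r) ≤ δ1 / 4 := by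
    apply div_le_div_of_nonneg_left hδ1.le (by norm_num)
    linarith
  have hneg : (n : ℝ) ^ (-(δ1 / 4)) ≤ (l : ℝ) ^ (-(δ1 / (8 * r))) := by
    rw [Real.rpow_neg hnpos.le, Real.rpow_neg hl0.le]
    apply inv_anti₀ (by positivity)
    calc (l : ℝ) ^ (δ1 / (8 * r)) ≤ (n : ℝ) ^ (δ1 / (8 * r)) :=
          Real.rpow_le_rpow hl0.le hln (by positivity)
      _ ≤ (n : ℝ) ^ (δ1 / 4) := Real.rpow_le_rpow_of_exponent_le hnR hδ2
  have hpow : (l : ℝ) ^ (δ1 / (8 * r) * l) ≤ (n : ℝ) ^ (δ1 / 4 * l') := by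
    calc (l : ℝ) ^ (δ1 / (8 * r) * l) ≤ (n : ℝ) ^ (δ1 / (8 * r) * l) :=
          Real.rpow_le_rpow hl0.le hln (by positivity)
      _ ≤ (n : ℝ) ^ (δ1 / 4 * l') := by
        apply Real.rpow_le_rpow_of_exponent_le hnR
        calc δ1 / (8 * r) * l ≤ δ1 / (8 * r) * (2 * r * l') :=
              mul_le_mul_of_nonneg_left hll' (by positivity)
          _ = δ1 / 4 * l' := by
            field_simp
            ring
  have hpow2 : (n : ℝ) ^ (δ1 / 4 * l') ≤ (n : ℝ) ^ (δ1 * l') := by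
    apply Real.rpow_le_rpow_of_exponent_le hnR
    apply mul_le_mul_of_nonneg_right _ hl'0.le
    linarith
  refine ⟨b2, b, q, M, m, s, w, m', P, ?_, hm'1, ?_, g1.trans hneg, ?_, ?_⟩
  · have h5 : 2 * (r * M) ≤ l := by
      calc 2 * (r * M) = r * (2 * M) := by ring
        _ ≤ r * l' := Nat.mul_le_mul_left _ h1
        _ ≤ l := hl'1
    have h6 : r * (M + 1) = r * M + r := by ring
    omega
  · -- the number of labels
    have hMR : (1 : ℝ) ≤ M := by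
      have : 1 ≤ M := by
        have := P.hM
        have := P.hm
        omega
      exact_mod_cast this
    have hm'R : (1 : ℝ) ≤ m' := by exact_mod_cast hm'1
    have hX : (4 : ℝ) * (m' * (M * (q : ℝ) ^ b2)) ≤ n := by
      have h5 : 4 * (m' * (M * q ^ b2)) ≤ n := by
        calc 4 * (m' * (M * q ^ b2)) = 2 * (m' * (M * (2 * q ^ b2))) := by ring
          _ ≤ n := h2
      exact_mod_cast h5
    set N0 : ℝ := m' * (M * (q : ℝ) ^ (2 * b2)) with hN0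
    have hN0pos : 0 ≤ N0 := by rw [hN0]; positivity
    have h5 : 16 * (N0 * M) ≤ (n : ℝ) ^ 2 := by
      have h6 : (4 * (m' * (M * (q : ℝ) ^ b2))) ^ 2 ≤ (n : ℝ) ^ 2 :=
        pow_le_pow_left₀ (by positivity) hX 2
      have h7 : (4 * (m' * (M * (q : ℝ) ^ b2))) ^ 2 = 16 * (N0 * M) * m' := by
        rw [hN0]
        ring
      rw [h7] at h6
      refine le_trans ?_ h6
      have h8 : 0 ≤ 16 * (N0 * M) := by positivity
      nlinarith
    have h6 : 16 * (N0 * (δ1 * l' / 4)) ≤ (n : ℝ) ^ 2 := by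
      refine le_trans ?_ h5
      apply mul_le_mul_of_nonneg_left _ (by norm_num)
      exact mul_le_mul_of_nonneg_left hM hN0pos
    have h7 : (n : ℝ) ^ 2 ≤ 4 * (l' : ℝ) ^ (2 + ε / 2) * l' := by
      have h8 : (n : ℝ) ^ 2 ≤ (2 * (l' : ℝ) ^ e) ^ 2 := pow_le_pow_left₀ hnpos.le hn2 2
      refine h8.trans (le_of_eq ?_)
      have h9 : ((l' : ℝ) ^ e) ^ 2 = (l' : ℝ) ^ (2 + ε / 2) * l' := by
        rw [← Real.rpow_natCast, ← Real.rpow_mul hl'0.le]
        nth_rewrite 3 [← Real.rpow_one (l' : ℝ)]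
        rw [← Real.rpow_add hl'0]
        congr 1
        rw [he2]
        push_cast
        ring
      rw [mul_pow, h9]
      ring
    have h8 : N0 * δ1 ≤ (l' : ℝ) ^ (2 + ε / 2) := by
      have h9 : (N0 * δ1) * (4 * l') ≤ (l' : ℝ) ^ (2 + ε / 2) * (4 * l') := by
        calc (N0 * δ1) * (4 * l') = 16 * (N0 * (δ1 * l' / 4)) := by ring
          _ ≤ (n : ℝ) ^ 2 := h6
          _ ≤ 4 * (l' : ℝ) ^ (2 + ε / 2) * l' := h7
          _ = _ := by ring
      exact le_of_mul_le_mul_right h9 (by positivity)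
    have h9 : N0 ≤ (l : ℝ) ^ (2 + ε / 2) / δ1 := by
      rw [le_div_iff₀ hδ1]
      exact h8.trans (Real.rpow_le_rpow hl'0.le hl'l (by positivity))
    have h10 : (2 : ℝ) * (r.factorial / δ1) ≤ (l : ℝ) ^ (ε / 2) := hl2 l hlb
    have h11 : ((r.factorial * (m' * (M * q ^ (2 * b2))) : ℕ) : ℝ) = r.factorial * N0 := by
      rw [hN0]
      push_cast
      ring
    rw [h11]
    have hfac : (0 : ℝ) < r.factorial := by exact_mod_cast Nat.factorial_pos r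
    calc (r.factorial : ℝ) * N0 ≤ r.factorial * ((l : ℝ) ^ (2 + ε / 2) / δ1) :=
          mul_le_mul_of_nonneg_left h9 hfac.le
      _ = (r.factorial / δ1) * (l : ℝ) ^ (2 + ε / 2) := by ring
      _ < (2 * (r.factorial / δ1)) * (l : ℝ) ^ (2 + ε / 2) := by
        apply mul_lt_mul_of_pos_right _ (by positivity)
        have : 0 < (r.factorial : ℝ) / δ1 := by positivity
        linarith
      _ ≤ (l : ℝ) ^ (ε / 2) * (l : ℝ) ^ (2 + ε / 2) :=
        mul_le_mul_of_nonneg_right h10 (by positivity)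
      _ = (l : ℝ) ^ (2 + ε) := by
        rw [← Real.rpow_add hl0]
        congr 1
        ring
  · -- the number of copies
    have h5 : 2 * ((n : ℝ) ^ (δ1 / 4) * (n : ℝ) ^ (δ1 / 4)) ≤ m' := by
      have h6 : (n : ℝ) ^ (-(δ1 / 4)) * (n : ℝ) ^ (δ1 / 4) = 1 := by
        rw [← Real.rpow_add hnpos]
        simp
      have h7 : 0 < (n : ℝ) ^ (δ1 / 4) := by positivity
      have h8 := mul_le_mul_of_nonneg_left hgm (show 0 ≤ 2 * (n : ℝ) ^ (δ1 / 4) by positivity)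
      calc 2 * ((n : ℝ) ^ (δ1 / 4) * (n : ℝ) ^ (δ1 / 4)) =
            2 * (n : ℝ) ^ (δ1 / 4) * (n : ℝ) ^ (δ1 / 4) := by ring
        _ ≤ _ := h8
        _ = ((n : ℝ) ^ (-(δ1 / 4)) * (n : ℝ) ^ (δ1 / 4)) * m' := by ring
        _ = m' := by rw [h6, one_mul]
    have h6 : (l : ℝ) ^ (δ1 / (8 * r)) ≤ (n : ℝ) ^ (δ1 / 4) :=
      (Real.rpow_le_rpow hl0.le hln (by positivity)).trans
        (Real.rpow_le_rpow_of_exponent_le hnR hδ2)
    have h7 : 0 < (l : ℝ) ^ (δ1 / (8 * r)) := by positivity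
    have h8 : 2 * ((l : ℝ) ^ (δ1 / (8 * r)) * (l : ℝ) ^ (δ1 / (8 * r))) ≤ m' := by
      refine le_trans ?_ h5
      apply mul_le_mul_of_nonneg_left _ (by norm_num)
      exact mul_le_mul h6 h6 h7.le (by positivity)
    have h9 : (l : ℝ) ^ (-(δ1 / (8 * r))) * (l : ℝ) ^ (δ1 / (8 * r)) = 1 := by
      rw [← Real.rpow_add hl0]
      simp
    have h10 : 0 < (l : ℝ) ^ (-(δ1 / (8 * r))) := by positivity
    have h11 := mul_le_mul_of_nonneg_left h8 (show 0 ≤ (l : ℝ) ^ (-(δ1 / (8 * r))) / 2 by positivity)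
    calc (l : ℝ) ^ (δ1 / (8 * r)) =
          ((l : ℝ) ^ (-(δ1 / (8 * r))) * (l : ℝ) ^ (δ1 / (8 * r))) * (l : ℝ) ^ (δ1 / (8 * r)) := by
          rw [h9, one_mul]
      _ = (l : ℝ) ^ (-(δ1 / (8 * r))) / 2 *
          (2 * ((l : ℝ) ^ (δ1 / (8 * r)) * (l : ℝ) ^ (δ1 / (8 * r)))) := by ring
      _ ≤ _ := h11
  · intro z hz
    have hz1 : (z : ℝ) < (n : ℝ) ^ (δ1 / 4 * l') := lt_of_lt_of_le hz hpow
    have hz2 : (z : ℝ) < (n : ℝ) ^ (δ1 * l') := lt_of_lt_of_le hz1 hpow2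
    refine ⟨(h4 z hz2).1, (h4 z hz2).2, lt_of_lt_of_le (g3 z hz1).2 ?_⟩
    exact mul_le_mul_of_nonneg_right hneg (by positivity)

end Pool.Agent.HM94.NI
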