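import Mathlib

/-!
# Boolean circuits as straight-line programs; inputs that are not negated
-/

set_option linter.unusedSectionVars false

namespace Pool.Agent.HM94.NI

/-- The functions that are available after the functions of the list `L` have been computed: the
members of `L`, the constants and the inputs. -/
def Available {E : Type} (L : List ((E → Bool) → Bool)) (f : (E → Bool) → Bool) : Prop :=
  f ∈ L ∨ (∃ c : Bool, f = fun _ => c) ∨ ∃ e : E, f = fun x => x e

/-- Boolean circuits (straight-line programs) with AND, OR and NOT gates, one gate for each member of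
the list, in which NOT gates are applied only to functions that do not depend on the inputs of `H`.
For `H = ∅` this is no restriction. -/
inductive Program {E : Type} (H : Set E) : List ((E → Bool) → Bool) → Prop
  | nil : Program H []
  | and {L f g} (hL : Program H L) (hf : Available L f) (hg : Available L g) :
      Program H ((fun x => f x && g x) :: L)
  | or {L f g} (hL : Program H L) (hf : Available L f) (hg : Available L g) :
      Program H ((fun x => f x || g x) :: L)
  | not {L f} (hL : Program H L) (hf : Available L f)
      (hH : ∀ x x' : E → Bool, (∀ e ∉ H, x e = x' e) → f x = f x') :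
      Program H ((fun x => !f x) :: L)

/-- `f` is computed by a circuit with at most `s` gates in which the inputs of `H` are not negated -/
def Computes {E : Type} (H : Set E) (s : ℕ) (f : (E → Bool) → Bool) : Prop :=
  ∃ L, Program H L ∧ L.length ≤ s ∧ Available L f

section

variable {E : Type} {H : Set E}

lemma Available.mono {L L' : List ((E → Bool) → Bool)} (h : ∀ f ∈ L, f ∈ L')
    {f : (E → Bool) → Bool} (hf : Available L f) : Available L' f := by
  rcases hf with h1 | h1
  · exact Or.inl (h f h1)
  · exact Or.inr h1

lemma Program.append {L L' : List ((E → Bool) → Bool)} (hL : Program H L) (hL' : Program H L') :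
    Program H (L' ++ L) := by
  induction hL' with
  | nil => exact hL
  | and _ hf hg ih =>
    exact Program.and ih (hf.mono fun f hf => List.mem_append_left _ hf)
      (hg.mono fun f hf => List.mem_append_left _ hf)
  | or _ hf hg ih =>
    exact Program.or ih (hf.mono fun f hf => List.mem_append_left _ hf)
      (hg.mono fun f hf => List.mem_append_left _ hf)
  | not _ hf hH ih =>
    exact Program.not ih (hf.mono fun f hf => List.mem_append_left _ hf) hH

/-- the inputs of `H` are replaced by the constants `a` -/
noncomputable def subst (H : Set E) (a : E → Bool) (x : E → Bool) : E → Bool :=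
  open Classical in fun e => if e ∈ H then a e else x e

lemma Available.subst (a : E → Bool) {L : List ((E → Bool) → Bool)} {f : (E → Bool) → Bool}
    (hf : Available L f) :
    Available (L.map fun g x => g (NI.subst H a x)) (fun x => f (NI.subst H a x)) := by
  classical
  rcases hf with h1 | ⟨c, rfl⟩ | ⟨e, rfl⟩
  · exact Or.inl (List.mem_map.mpr ⟨f, h1, rfl⟩)
  · exact Or.inr (Or.inl ⟨c, rfl⟩)
  · by_cases he : e ∈ H
    · refine Or.inr (Or.inl ⟨a e, ?_⟩)
      funext x
      show NI.subst H a x e = a e
      unfold NI.subst
      rw [if_pos he]
    · refine Or.inr (Or.inr ⟨e, ?_⟩)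
      funext x
      show NI.subst H a x e = x e
      unfold NI.subst
      rw [if_neg he]

lemma subst_congr (a : E → Bool) {x x' : E → Bool} (h : ∀ e ∉ H, x e = x' e) :
    subst H a x = subst H a x' := by
  classical
  funext e
  unfold subst
  by_cases he : e ∈ H
  · rw [if_pos he, if_pos he]
  · rw [if_neg he, if_neg he, h e he]

lemma Program.subst (a : E → Bool) {L : List ((E → Bool) → Bool)} (hL : Program (∅ : Set E) L) :
    Program H (L.map fun g x => g (NI.subst H a x)) := by
  induction hL with
  | nil => exact Program.nil
  | and _ hf hg ih => exact Program.and ih (hf.subst a) (hg.subst a)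
  | or _ hf hg ih => exact Program.or ih (hf.subst a) (hg.subst a)
  | @not L f _ hf _ ih =>
    refine Program.not ih (hf.subst a) ?_
    intro x x' h
    show f (NI.subst H a x) = f (NI.subst H a x')
    rw [subst_congr a h]

lemma Computes.subst (a : E → Bool) {s : ℕ} {f : (E → Bool) → Bool}
    (hf : Computes (∅ : Set E) s f) : Computes H s (fun x => f (NI.subst H a x)) := by
  obtain ⟨L, h1, h2, h3⟩ := hf
  exact ⟨_, h1.subst a, by rw [List.length_map]; exact h2, h3.subst a⟩

lemma Computes.and {s t : ℕ} {f g : (E → Bool) → Bool} (hf : Computes H s f)
    (hg : Computes H t g) : Computes H (s + t + 1) (fun x => f x && g x) := by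
  obtain ⟨L, h1, h2, h3⟩ := hf
  obtain ⟨L', h4, h5, h6⟩ := hg
  refine ⟨_, Program.and (h1.append h4) (h3.mono fun f hf => List.mem_append_right _ hf)
    (h6.mono fun f hf => List.mem_append_left _ hf), ?_, Or.inl List.mem_cons_self⟩
  rw [List.length_cons, List.length_append]
  omega

lemma Computes.or {s t : ℕ} {f g : (E → Bool) → Bool} (hf : Computes H s f)
    (hg : Computes H t g) : Computes H (s + t + 1) (fun x => f x || g x) := by
  obtain ⟨L, h1, h2, h3⟩ := hf
  obtain ⟨L', h4, h5, h6⟩ := hg
  refine ⟨_, Program.or (h1.append h4) (h3.mono fun f hf => List.mem_append_right _ hf)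
    (h6.mono fun f hf => List.mem_append_left _ hf), ?_, Or.inl List.mem_cons_self⟩
  rw [List.length_cons, List.length_append]
  omega

lemma computes_input (e : E) : Computes H 0 (fun x => x e) :=
  ⟨[], Program.nil, le_rfl, Or.inr (Or.inr ⟨e, rfl⟩)⟩

lemma computes_const (c : Bool) : Computes H 0 (fun _ : E → Bool => c) :=
  ⟨[], Program.nil, le_rfl, Or.inr (Or.inl ⟨c, rfl⟩)⟩

lemma Computes.le {s t : ℕ} {f : (E → Bool) → Bool} (hf : Computes H s f) (h : s ≤ t) :
    Computes H t f := by
  obtain ⟨L, h1, h2, h3⟩ := hf
  exact ⟨L, h1, h2.trans h, h3⟩

/-- conjunction with inputs -/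
lemma Computes.allInputs {s : ℕ} {f : (E → Bool) → Bool} (hf : Computes H s f) (l : List E) :
    Computes H (s + l.length) (fun x => l.all x && f x) := by
  induction l with
  | nil => simpa using hf
  | cons e l ih =>
    have h1 := (computes_input (H := H) e).and ih
    have h2 : (fun x : E → Bool => (e :: l).all x && f x) =
        fun x => x e && (l.all x && f x) := by
      funext x
      rw [List.all_cons, Bool.and_assoc]
    rw [h2, List.length_cons]
    exact h1.le (by omega)

/-- disjunction -/
lemma computes_any {s : ℕ} {ι : Type} (l : List ι) (f : ι → (E → Bool) → Bool)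
    (hf : ∀ i ∈ l, Computes H s (f i)) :
    Computes H (l.length * (s + 1)) (fun x => l.any fun i => f i x) := by
  induction l with
  | nil => simpa using computes_const (H := H) false
  | cons i l ih =>
    have h1 := (hf i List.mem_cons_self).or (ih fun j hj => hf j (List.mem_cons_of_mem _ hj))
    have h2 : (fun x : E → Bool => (i :: l).any fun j => f j x) =
        fun x => f i x || l.any fun j => f j x := by
      funext x
      rw [List.any_cons]
    rw [h2, List.length_cons]
    refine h1.le ?_
    rw [Nat.add_mul, one_mul]
    omega

/-- Few inputs need not be negated. -/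
theorem avoid [Finite E] {s : ℕ} {f : (E → Bool) → Bool} (hmono : Monotone f)
    (hf : Computes (∅ : Set E) s f) :
    Computes H (2 ^ H.ncard * (s + H.ncard + 1)) f := by
  classical
  have := Fintype.ofFinite E
  set Hf : Finset E := Finset.univ.filter (· ∈ H) with hHf
  have hmem : ∀ e, e ∈ Hf ↔ e ∈ H := fun e => by simp [hHf]
  have hcard : Hf.card = H.ncard := by
    rw [Set.ncard_eq_toFinset_card' H]
    congr 1
    ext e
    simp [hHf]
  have key : f = fun x => (Hf.powerset.toList).any fun a =>
      (a.toList.all x && f (subst H (fun e => decide (e ∈ a)) x)) := by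
    funext x
    apply Bool.eq_iff_iff.mpr
    rw [List.any_eq_true]
    constructor
    · intro hx
      refine ⟨Hf.filter (fun e => x e = true), by simp, ?_⟩
      rw [Bool.and_eq_true, List.all_eq_true]
      refine ⟨fun e he => ?_, ?_⟩
      · rw [Finset.mem_toList, Finset.mem_filter] at he
        exact he.2
      · have h1 : subst H (fun e => decide (e ∈ Hf.filter fun e => x e = true)) x = x := by
          funext e
          unfold subst
          by_cases he : e ∈ H
          · rw [if_pos he]
            have h2 : e ∈ Hf := (hmem e).mpr he
            rcases hxe : x e with _ | _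
            · simp [hxe]
            · simp [hxe, h2]
          · rw [if_neg he]
        rw [h1]
        exact hx
    · rintro ⟨a, -, ha⟩
      rw [Bool.and_eq_true, List.all_eq_true] at ha
      obtain ⟨h1, h2⟩ := ha
      have h3 : subst H (fun e => decide (e ∈ a)) x ≤ x := by
        intro e
        unfold subst
        by_cases he : e ∈ H
        · rw [if_pos he]
          by_cases hea : e ∈ a
          · rw [h1 e (Finset.mem_toList.mpr hea)]
            exact Bool.le_true _
          · show decide (e ∈ a) ≤ x e
            rw [decide_eq_false hea]
            exact Bool.false_le _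
        · rw [if_neg he]
      have h4 := hmono h3
      rw [h2] at h4
      exact top_le_iff.mp h4
  rw [key]
  have h1 := computes_any (H := H) (s := s + H.ncard) Hf.powerset.toList
    (fun a x => (a.toList.all x && f (subst H (fun e => decide (e ∈ a)) x))) (by
      intro a ha
      rw [Finset.mem_toList, Finset.mem_powerset] at ha
      refine ((hf.subst (H := H) fun e => decide (e ∈ a)).allInputs a.toList).le ?_
      rw [Finset.length_toList, ← hcard]
      exact Nat.add_le_add_left (Finset.card_le_card ha) _)
  refine h1.le ?_
  rw [Finset.length_toList, Finset.card_powerset, hcard]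

end

end Pool.Agent.HM94.NI
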