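import Pool.Agent.HM94.NI.Gad
import Pool.Agent.HM94.NI.Par
import Pool.Agent.HM94.NI.Prog
import Pool.Agent.H520R2.Sun

/-!
# Every large set of inputs of the clique problem supports a hard restriction
-/

set_option linter.unusedSectionVars false
set_option linter.unusedVariables false

namespace Pool.Agent.HM94.NI

open Finset Pool.Agent.W969.MC Pool.Agent.H560R2

/-- `H` contains a sunflower with at least `N` members -/
def Flower {n r : ℕ} (H : Set {e : Finset (Fin n) // e.card = r}) (N : ℝ) : Prop :=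
  ∃ Q : Set {e : Finset (Fin n) // e.card = r}, Q ⊆ H ∧ N ≤ Q.ncard ∧
    ∃ Y : Finset (Fin n), (∀ e ∈ Q, Y ⊆ e.1) ∧ ∀ e ∈ Q, ∀ e' ∈ Q, e ≠ e' → e.1 ∩ e'.1 ⊆ Y

/-- large sets contain large sunflowers -/
theorem flower_of_card {n r : ℕ} {H : Set {e : Finset (Fin n) // e.card = r}} {N : ℕ}
    (hN : 1 ≤ N) (hH : N ^ r * r.factorial < H.ncard) : Flower H N := by
  classical
  set F : Finset (Finset (Fin n)) := (univ.filter (fun e => e ∈ H)).image Subtype.val with hF
  have hFcard : F.card = H.ncard := by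
    rw [hF, Finset.card_image_of_injective _ Subtype.val_injective,
      Set.ncard_eq_toFinset_card' H]
    congr 1
    ext e
    simp
  have hFH : ∀ S ∈ F, ∃ e ∈ H, e.1 = S := by
    intro S hS
    obtain ⟨e, he, rfl⟩ := Finset.mem_image.mp hS
    exact ⟨e, (Finset.mem_filter.mp he).2, rfl⟩
  obtain ⟨Q, hQF, hQc, Y, hY1, hY2⟩ := Pool.Agent.H520R2.sunflower N hN r F
    (fun S hS => by
      obtain ⟨e, -, rfl⟩ := hFH S hS
      exact e.2.le) (by rw [hFcard]; exact hH)
  refine ⟨{e | e.1 ∈ Q}, ?_, ?_, Y, fun e he => hY1 _ he, ?_⟩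
  · intro e he
    obtain ⟨e', h1, h2⟩ := hFH _ (hQF he)
    have : e' = e := Subtype.ext h2
    rwa [← this]
  · have h1 : {e : {e : Finset (Fin n) // e.card = r} | e.1 ∈ Q}.ncard = Q.card := by
      rw [← Set.ncard_coe_finset Q, ← Set.ncard_image_of_injective _ Subtype.val_injective]
      congr 1
      ext S
      constructor
      · rintro ⟨e, he, rfl⟩
        exact he
      · intro hS
        obtain ⟨e, -, rfl⟩ := hFH S (hQF hS)
        exact ⟨e, hS, rfl⟩
    rw [h1, hQc]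
  · intro e he e' he' hne
    exact hY2 _ he _ he' (fun hh => hne (Subtype.ext hh))

/-- the sunflower, indexed by the labels -/
theorem sun_exists {n r k M b2 q m' : ℕ} (hM : 1 ≤ M) (hq : 16 ≤ q) (hb2 : 0 < b2)
    (hm' : 1 ≤ m') (H : Set {e : Finset (Fin n) // e.card = r})
    (hH : Flower H ((m' * (M * q ^ (2 * b2)) : ℕ) : ℝ))
    (hk : r * (M + 1) ≤ k) (hn : k + r * (m' * (M * q ^ (2 * b2))) ≤ n) :
    ∃ (p : ℕ) (D : Sun (Fin M) (Fin 2 × Fin b2) (Fin q) m' n p),
      D.Y.card + p = r ∧ D.Y.card + D.Z.card + p * M = k ∧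
      ∀ c, ∃ e ∈ H, e.1 = D.Y ∪ D.P c := by
  classical
  set N0 := m' * (M * q ^ (2 * b2)) with hN0
  have hN2 : 2 ≤ N0 := by
    have h1 : q ^ 1 ≤ q ^ (2 * b2) := Nat.pow_le_pow_right (by omega) (by omega)
    have h2 : 1 * (1 * q ^ 1) ≤ N0 := Nat.mul_le_mul hm' (Nat.mul_le_mul hM h1)
    rw [pow_one] at h2
    omega
  obtain ⟨Q0, hQH, hQN, Y, hY1, hY2⟩ := hH
  have hQN' : N0 ≤ (univ.filter (fun e => e ∈ Q0)).card := by
    have h1 : N0 ≤ Q0.ncard := by exact_mod_cast hQN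
    rw [Set.ncard_eq_toFinset_card' Q0] at h1
    convert h1 using 2
    ext e
    simp
  obtain ⟨Q, hQs, hQc⟩ := Finset.exists_subset_card_eq hQN'
  have hQ0 : ∀ e ∈ Q, e ∈ Q0 := fun e he => (Finset.mem_filter.mp (hQs he)).2
  have hcard : Fintype.card (Lab (Fin M) (Fin 2 × Fin b2) (Fin q) m') = Fintype.card Q := by
    rw [Fintype.card_coe, hQc, hN0]
    simp only [Fintype.card_prod, Fintype.card_fin, Fintype.card_fun]
  let E := Fintype.equivOfCardEq hcard
  have hEQ : ∀ c, (E c).1 ∈ Q0 := fun c => hQ0 _ (E c).2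
  have hYE : ∀ c, Y ⊆ (E c).1.1 := fun c => hY1 _ (hEQ c)
  have hEr : ∀ c, (E c).1.1.card = r := fun c => (E c).1.2
  have hEne : ∀ c c', c ≠ c' → (E c).1 ≠ (E c').1 := by
    intro c c' hne hh
    exact hne (E.injective (Subtype.ext hh))
  have hLab : 2 ≤ Fintype.card (Lab (Fin M) (Fin 2 × Fin b2) (Fin q) m') := by
    rw [hcard, Fintype.card_coe, hQc]
    exact hN2
  obtain ⟨c1, c2, hc12⟩ := Fintype.one_lt_card_iff.mp hLab
  have hYr : Y.card < r := by
    rcases lt_or_ge Y.card r with h1 | h1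
    · exact h1
    · exfalso
      have h2 := Finset.eq_of_subset_of_card_le (hYE c1) (by rw [hEr]; exact h1)
      have h3 := Finset.eq_of_subset_of_card_le (hYE c2) (by rw [hEr]; exact h1)
      exact hEne c1 c2 hc12 (Subtype.ext (h2.symm.trans h3))
  set p := r - Y.card with hp
  set P : Lab (Fin M) (Fin 2 × Fin b2) (Fin q) m' → Finset (Fin n) :=
    fun c => (E c).1.1 \ Y with hP
  have hPc : ∀ c, (P c).card = p := by
    intro c
    rw [hP, hp]
    show ((E c).1.1 \ Y).card = r - Y.card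
    rw [Finset.card_sdiff_of_subset (hYE c), hEr]
  have hPP : ∀ c c', c ≠ c' → Disjoint (P c) (P c') := by
    intro c c' hne
    rw [Finset.disjoint_left]
    intro v hv hv'
    obtain ⟨h1, h2⟩ := Finset.mem_sdiff.mp hv
    obtain ⟨h3, -⟩ := Finset.mem_sdiff.mp hv'
    exact h2 (hY2 _ (hEQ c) _ (hEQ c') (hEne c c' hne) (Finset.mem_inter.mpr ⟨h1, h3⟩))
  have hPY : ∀ c, Disjoint (P c) Y := fun c => Finset.sdiff_disjoint
  -- the universal vertices
  set B : Finset (Fin n) := Y ∪ univ.biUnion P with hB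
  have hBc : B.card ≤ Y.card + p * N0 := by
    rw [hB]
    refine (Finset.card_union_le _ _).trans (Nat.add_le_add_left ?_ _)
    refine Finset.card_biUnion_le.trans ?_
    rw [Finset.sum_congr rfl (fun c _ => hPc c), Finset.sum_const, smul_eq_mul, Finset.card_univ,
      hcard, Fintype.card_coe, hQc, mul_comm]
  have hpr : p ≤ r := Nat.sub_le _ _
  have hk2 : Y.card + p * M ≤ k := by
    have h1 : p * M ≤ r * M := Nat.mul_le_mul_right _ hpr
    have h2 : r * (M + 1) = r * M + r := by ring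
    omega
  have hz : k - (Y.card + p * M) ≤ (univ \ B).card := by
    rw [Finset.card_univ_sdiff, Fintype.card_fin]
    have h1 : p * N0 ≤ r * N0 := Nat.mul_le_mul_right _ hpr
    omega
  obtain ⟨Z, hZ1, hZ2⟩ := Finset.exists_subset_card_eq hz
  have hZB : ∀ v ∈ Z, v ∉ B := fun v hv => (Finset.mem_sdiff.mp (hZ1 hv)).2
  refine ⟨p, ⟨P, Y, Z, by omega, hPc, hPP, hPY, ?_, ?_⟩, ?_, ?_, ?_⟩
  · intro c
    rw [Finset.disjoint_left]
    intro v hv hvZ
    exact hZB v hvZ (Finset.mem_union_right _ (Finset.mem_biUnion.mpr ⟨c, mem_univ _, hv⟩))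
  · rw [Finset.disjoint_left]
    intro v hv hvZ
    exact hZB v hvZ (Finset.mem_union_left _ hv)
  · show Y.card + p = r
    omega
  · show Y.card + Z.card + p * M = k
    omega
  · intro c
    refine ⟨(E c).1, hQH (hEQ c), ?_⟩
    show (E c).1.1 = Y ∪ ((E c).1.1 \ Y)
    rw [Finset.union_sdiff_of_subset (hYE c)]

/-- everything that is needed for the lower bounds -/
structure Data (n r k l : ℕ) (δ : ℝ) (H : Set {e : Finset (Fin n) // e.card = r}) where
  (b2 b q M m s w m' p : ℕ)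
  h : Fin M → (Fin 2 × Fin b2) → Fin m
  D : Sun (Fin M) (Fin 2 × Fin b2) (Fin q) m' n p
  good : Good h (Fin q) b s w
  hM : 0 < M
  hm' : 1 ≤ m'
  hb2 : 0 < b2
  hq16 : 16 ≤ q
  hr : D.Y.card + p = r
  hk : D.Y.card + D.Z.card + p * M = k
  hH : ∀ c, ∃ e ∈ H, e.1 = D.Y ∪ D.P c
  hq : 16 / (q : ℝ) ≤ (l : ℝ) ^ (-δ)
  hfree : (l : ℝ) ^ δ ≤ (l : ℝ) ^ (-δ) / 2 * m'
  hz : ∀ z : ℕ, (z : ℝ) < (l : ℝ) ^ (δ * l) → z ≤ (q + 1) ^ m ∧
          8 * z * 2 ^ (w / (2 * b) / b + 1) < q ^ (w / (2 * b) / b + 1) ∧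
          16 * (z : ℝ) * 2 ^ (w / (2 * b) / b + 1) <
            (l : ℝ) ^ (-δ) * (q : ℝ) ^ (w / (2 * b) / b + 1)

theorem data_exists (r : ℕ) (hr : 2 ≤ r) (ε : ℝ) (hε : 0 < ε) :
    ∃ δ : ℝ, 0 < δ ∧ ∃ l0 : ℕ, ∀ n k l : ℕ, l0 ≤ l → l ≤ k → (k : ℝ) + (l : ℝ) ^ (2 + ε) ≤ n →
      ∀ H : Set {e : Finset (Fin n) // e.card = r}, Flower H ((l : ℝ) ^ (2 + ε)) →
      Nonempty (Data n r k l δ H) := by
  obtain ⟨δ, hδ, l0, h1⟩ := pars_l r hr ε hε
  refine ⟨δ, hδ, max l0 1, ?_⟩
  intro n k l hl hlk hkn H hH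
  obtain ⟨b2, b, q, M, m, s, w, m', P, h2, h3, h4, h5, h6, h7⟩ := h1 l ((le_max_left _ _).trans hl)
  obtain ⟨h, hG⟩ := P.good
  have hM : 1 ≤ M := by
    have := P.hM
    have := P.hm
    omega
  set N0 := m' * (M * q ^ (2 * b2)) with hN0
  have hl0 : (0 : ℝ) < l := by
    have : 0 < l := by
      have := (le_max_right l0 1).trans hl
      omega
    exact_mod_cast this
  have hfac : 1 ≤ r.factorial := Nat.factorial_pos r
  have hA : Flower H ((N0 : ℕ) : ℝ) := by
    obtain ⟨Q, hQ1, hQ2, hQ3⟩ := hH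
    refine ⟨Q, hQ1, ?_, hQ3⟩
    refine le_trans ?_ hQ2
    refine le_trans ?_ h4.le
    have : N0 ≤ r.factorial * N0 := Nat.le_mul_of_pos_left _ hfac
    exact_mod_cast this
  have hB : k + r * N0 ≤ n := by
    have h8 : r * N0 ≤ r.factorial * N0 := Nat.mul_le_mul_right _ (Nat.self_le_factorial r)
    have h9 : ((r * N0 : ℕ) : ℝ) ≤ (l : ℝ) ^ (2 + ε) := by
      refine le_trans ?_ h4.le
      exact_mod_cast h8
    have h10 : ((k + r * N0 : ℕ) : ℝ) ≤ n := by
      push_cast at h9 ⊢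
      linarith
    exact_mod_cast h10
  obtain ⟨p, D, h8, h9, h10⟩ := sun_exists hM P.hq P.hb2 h3 H hA (h2.trans hlk) hB
  exact ⟨⟨b2, b, q, M, m, s, w, m', p, h, D, hG, by omega, h3, P.hb2, P.hq, h8, h9, h10, h5, h6, h7⟩⟩

section

variable {n r k l : ℕ} {δ : ℝ} {H : Set {e : Finset (Fin n) // e.card = r}}

/-- the values of the inputs outside of `H` -/
noncomputable def Data.out (X : Data n r k l δ H) (e : {e : Finset (Fin n) // e.card = r}) : Bool :=
  enc X.D X.h r (fun _ => ∅) e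

lemma Data.agree (X : Data n r k l δ H) (y : Fin X.m' → Set (Fin X.M × ((Fin 2 × Fin X.b2) → Fin X.q)))
    {e : {e : Finset (Fin n) // e.card = r}} (he : e ∉ H) : enc X.D X.h r y e = X.out e := by
  have : Nonempty (Fin 2 × Fin X.b2) := ⟨(0, ⟨0, X.hb2⟩)⟩
  apply enc_const X.hr
  intro c hc
  obtain ⟨e', h1, h2⟩ := X.hH c
  apply he
  have : e' = e := Subtype.ext (h2.trans hc)
  rwa [← this]

lemma Data.clique (X : Data n r k l δ H) (hr : 2 ≤ r)
    (y : Fin X.m' → Set (Fin X.M × ((Fin 2 × Fin X.b2) → Fin X.q))) :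
    HasClq n r k (enc X.D X.h r y) ↔
      ∃ j, ∃ p0 : Fin X.m → Fin X.q,
        (tu X.h (gr p0) : Set (Fin X.M × ((Fin 2 × Fin X.b2) → Fin X.q))) ⊆ y j := by
  have : Nonempty (Fin X.q) := ⟨⟨0, by have := X.hq16; omega⟩⟩
  have : Nonempty (Fin 2 × Fin X.b2) := ⟨(0, ⟨0, X.hb2⟩)⟩
  have h1 := enc_clique (D := X.D) (h := X.h) (y := y) hr X.hr (by
    rw [Fintype.card_fin]; exact X.hM)
  rw [Fintype.card_fin, X.hk] at h1
  exact h1

/-- The restriction is hard for randomised circuits with few further gates. -/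
theorem Data.rand (X : Data n r k l δ H) (hr : 2 ≤ r) (R : Type) [Fintype R] [Nonempty R]
    (C : R → RC ↥H) (A0 : ℝ)
    (hyes : ∀ x : {e : Finset (Fin n) // e.card = r} → Bool, (∀ e ∉ H, x e = X.out e) →
      HasClq n r k x →
      (A0 + (l : ℝ) ^ (-δ)) * Fintype.card R ≤ ({ρ : R | (C ρ).acc (fun e => x e.1)}.ncard : ℝ))
    (hno : ∀ x : {e : Finset (Fin n) // e.card = r} → Bool, (∀ e ∉ H, x e = X.out e) →
      ¬ HasClq n r k x →
      ({ρ : R | (C ρ).acc (fun e => x e.1)}.ncard : ℝ) ≤ A0 * Fintype.card R)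
    (hfree : ∀ ρ, ((C ρ).free : ℝ) ≤ (l : ℝ) ^ δ) :
    ∃ ρ, (l : ℝ) ^ (δ * l) ≤ ((C ρ).size : ℝ) := by
  classical
  by_contra hcon
  push Not at hcon
  have : Nonempty (Fin 2 × Fin X.b2) := ⟨(0, ⟨0, X.hb2⟩)⟩
  refine csp_rand X.good (m' := X.m') C (fun y e => enc X.D X.h r y e.1) ?_ ?_ A0
    ((l : ℝ) ^ (-δ)) ?_ ?_ (fun ρ => (hfree ρ).trans X.hfree) ?_ ?_ ?_
  · intro y y' hy e
    exact enc_mono hy e.1
  · intro y J e
    exact enc_narrow X.hr y J e.1
  · intro y hy
    exact hyes _ (fun e he => X.agree y he) ((X.clique hr y).mpr hy)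
  · intro y hy
    exact hno _ (fun e he => X.agree y he) (fun hh => hy ((X.clique hr y).mp hh))
  · intro ρ
    rw [Fintype.card_fin, Fintype.card_fin]
    exact (X.hz _ (hcon ρ)).1
  · rw [Fintype.card_fin]
    exact X.hq
  · intro ρ
    rw [Fintype.card_fin]
    exact (X.hz _ (hcon ρ)).2.2

/-- the instance with a single copy -/
noncomputable def Data.inst (X : Data n r k l δ H)
    (y : Set (Fin X.M × ((Fin 2 × Fin X.b2) → Fin X.q))) :
    {e : Finset (Fin n) // e.card = r} → Bool :=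
  enc X.D X.h r (Function.update (fun _ => ∅) ⟨0, X.hm'⟩ y)

lemma Data.inst_clique (X : Data n r k l δ H) (hr : 2 ≤ r)
    (y : Set (Fin X.M × ((Fin 2 × Fin X.b2) → Fin X.q))) :
    HasClq n r k (X.inst y) ↔ ∃ p0 : Fin X.m → Fin X.q,
        (tu X.h (gr p0) : Set (Fin X.M × ((Fin 2 × Fin X.b2) → Fin X.q))) ⊆ y := by
  classical
  have hb2 := X.hb2
  have : Nonempty (Fin 2 × Fin X.b2) := ⟨(0, ⟨0, X.hb2⟩)⟩
  unfold Data.inst
  rw [X.clique hr]
  constructor
  · rintro ⟨j, p0, hj⟩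
    by_cases h : j = ⟨0, X.hm'⟩
    · subst h
      rw [Function.update_self] at hj
      exact ⟨p0, hj⟩
    · exfalso
      rw [Function.update_of_ne h] at hj
      have h1 : ((⟨0, X.hM⟩ : Fin X.M), fun j => p0 (X.h ⟨0, X.hM⟩ j)) ∈ tu X.h (gr p0) := by
        rw [mem_tu]
        intro j
        rw [mem_gr]
      exact hj (Finset.mem_coe.mpr h1)
  · rintro ⟨p0, hp⟩
    refine ⟨⟨0, X.hm'⟩, p0, ?_⟩
    rw [Function.update_self]
    exact hp

/-- the value of a Boolean function on the instance -/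
noncomputable def Data.phi (X : Data n r k l δ H)
    (g : ({e : Finset (Fin n) // e.card = r} → Bool) → Bool)
    (y : Set (Fin X.M × ((Fin 2 × Fin X.b2) → Fin X.q))) : ℝ :=
  if g (X.inst y) = true then 1 else 0

/-- the leaves -/
def Data.leaves (X : Data n r k l δ H) :
    Set (Set (Fin X.M × ((Fin 2 × Fin X.b2) → Fin X.q)) → ℝ) :=
  {b | (∃ c : ℝ, b = fun _ => c) ∨ ∃ e, b = X.phi (fun x => x e)}

lemma Data.avail (X : Data n r k l δ H)
    {L : List (({e : Finset (Fin n) // e.card = r} → Bool) → Bool)}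
    {f : ({e : Finset (Fin n) // e.card = r} → Bool) → Bool} (hf : Available L f) :
    X.phi f ∈ X.leaves ∨ X.phi f ∈ L.map X.phi := by
  rcases hf with h1 | ⟨c, rfl⟩ | ⟨e, rfl⟩
  · exact Or.inr (List.mem_map_of_mem h1)
  · exact Or.inl (Or.inl ⟨if c = true then 1 else 0, rfl⟩)
  · exact Or.inl (Or.inr ⟨e, rfl⟩)

lemma Data.rprog (X : Data n r k l δ H)
    {L : List (({e : Finset (Fin n) // e.card = r} → Bool) → Bool)} (hL : Program H L) :
    RProg X.leaves (L.map X.phi) := by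
  induction hL with
  | nil => exact RProg.nil
  | @and L f g _ hf hg ih =>
    rw [List.map_cons]
    have e : X.phi (fun x => f x && g x) =
        fun y => (fun u : Fin 2 → ℝ => min (u 0) (u 1)) (fun j => (![X.phi f, X.phi g] j) y) := by
      funext y
      show (if (f (X.inst y) && g (X.inst y)) = true then (1 : ℝ) else 0) =
        min (if f (X.inst y) = true then 1 else 0) (if g (X.inst y) = true then 1 else 0)
      rcases f (X.inst y) <;> rcases g (X.inst y) <;> simp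
    rw [e]
    refine RProg.gate 2 le_rfl (fun u : Fin 2 → ℝ => min (u 0) (u 1)) ?_ ![X.phi f, X.phi g] ih ?_
    · intro u v huv
      exact min_le_min (huv 0) (huv 1)
    · intro j
      fin_cases j
      · exact X.avail hf
      · exact X.avail hg
  | @or L f g _ hf hg ih =>
    rw [List.map_cons]
    have e : X.phi (fun x => f x || g x) =
        fun y => (fun u : Fin 2 → ℝ => max (u 0) (u 1)) (fun j => (![X.phi f, X.phi g] j) y) := by
      funext y
      show (if (f (X.inst y) || g (X.inst y)) = true then (1 : ℝ) else 0) =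
        max (if f (X.inst y) = true then 1 else 0) (if g (X.inst y) = true then 1 else 0)
      rcases f (X.inst y) <;> rcases g (X.inst y) <;> simp
    rw [e]
    refine RProg.gate 2 le_rfl (fun u : Fin 2 → ℝ => max (u 0) (u 1)) ?_ ![X.phi f, X.phi g] ih ?_
    · intro u v huv
      exact max_le_max (huv 0) (huv 1)
    · intro j
      fin_cases j
      · exact X.avail hf
      · exact X.avail hg
  | @not L f _ _ hH ih =>
    rw [List.map_cons]
    have e : X.phi (fun x => !f x) =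
        fun y => (fun _ : Fin 0 → ℝ => X.phi (fun x => !f x) ∅)
          (fun j : Fin 0 => (j.elim0 : Set (Fin X.M × ((Fin 2 × Fin X.b2) → Fin X.q)) → ℝ) y) := by
      funext y
      show (if (!f (X.inst y)) = true then (1 : ℝ) else 0) =
        if (!f (X.inst ∅)) = true then (1 : ℝ) else 0
      have h1 : f (X.inst y) = f (X.inst ∅) := by
        apply hH
        intro e he
        unfold Data.inst
        rw [X.agree _ he, X.agree _ he]
      rw [h1]
    rw [e]
    refine RProg.gate 0 (by norm_num) (fun _ : Fin 0 → ℝ => X.phi (fun x => !f x) ∅) ?_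
      (fun j : Fin 0 => j.elim0) ih (fun j => j.elim0)
    intro u v _
    exact le_rfl

/-- The restriction is hard for circuits in which the inputs of `H` are not negated. -/
theorem Data.prog (X : Data n r k l δ H) (hr : 2 ≤ r) {s : ℕ}
    {f : ({e : Finset (Fin n) // e.card = r} → Bool) → Bool} (hf : Computes H s f)
    (hfc : ∀ x, f x = true ↔ HasClq n r k x) : (l : ℝ) ^ (δ * l) ≤ s := by
  classical
  by_contra hcon
  push Not at hcon
  obtain ⟨L, h1, h2, h3⟩ := hf
  have hLs : (L.length : ℝ) < (l : ℝ) ^ (δ * l) := by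
    have : (L.length : ℝ) ≤ s := by exact_mod_cast h2
    linarith
  obtain ⟨h4, h5, -⟩ := X.hz _ hLs
  have : Nonempty (Fin 2 × Fin X.b2) := ⟨(0, ⟨0, X.hb2⟩)⟩
  have hG := X.good
  have hphi : ∀ y, (1 : ℝ) ≤ X.phi f y ↔ ∃ p0 : Fin X.m → Fin X.q,
        (tu X.h (gr p0) : Set (Fin X.M × ((Fin 2 × Fin X.b2) → Fin X.q))) ⊆ y := by
    intro y
    rw [← X.inst_clique hr, ← hfc]
    unfold Data.phi
    split_ifs with h
    · simp [h]
    · simp only [h]
      norm_num
  have key := core X.b X.s X.w hG.hb hG.hA hG.hE hG.hw hG.hws hG.hV hG.hI hG.hq hG.hstar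
    X.leaves (by
      rintro b (⟨c, rfl⟩ | ⟨e, rfl⟩)
      · exact ⟨∅, by simp, fun x x' _ => le_rfl⟩
      · obtain ⟨T', hT1, hT2⟩ := enc_narrow (h := X.h) X.hr (fun _ => ∅) ⟨0, X.hm'⟩ e
        refine ⟨T', hT1, fun x x' hx => ?_⟩
        show (if X.inst x e = true then (1 : ℝ) else 0) ≤ if X.inst x' e = true then 1 else 0
        by_cases h6 : X.inst x e = true
        · have h7 : X.inst x' e = true := hT2 x x' hx h6
          rw [if_pos h6, if_pos h7]
        · rw [if_neg h6]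
          split_ifs <;> norm_num) (X.rprog h1) (by
      rw [List.length_map, Fintype.card_fin, Fintype.card_fin]
      exact h4) (X.phi f) (X.avail h3) 1
    (fun p0 => (hphi _).mpr ⟨p0, subset_rfl⟩) (by
      intro x hx
      rw [← not_le, hphi]
      rintro ⟨p0, hp0⟩
      exact hx p0 (Finset.coe_subset.mp hp0))
  rw [List.length_map, Fintype.card_fin] at key
  omega

end

end Pool.Agent.HM94.NI
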